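import Mathlib
import Pool.Graph.R_pool_sql_team_seeded_efc1946e.K1H34.UNI.Stm

set_option autoImplicit false

/-!
# Project KC (helper21): `c(F) ≤ 1` for every three-colourable `F`: interface of the pieces

Definitions `nb Pr es KK TT Dep` and the proved pieces `S_WLLL S_MASS S_KST S_SRC S_ONE` are those of
the library (`K1H34/UNI/Stm.lean`).  See `NOTES.md`.
-/

namespace Pool.Agent.H21.UC

open Finset Classical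
open Pool.Agent.K1H34.UNI (nb)

/-- CONC2: sharp concentration for the part of `Nn` not covered by independent random sets, with
round dependent covering probabilities -/
def S_CONC2 : Prop :=
  ∀ (J Ω V : Type) [Fintype J] [Fintype Ω] [Fintype V] (W : Ω → ℝ), (∀ ω, 0 ≤ W ω) →
    ∑ ω, W ω = 1 →
    ∀ (f : J → Ω → Finset V) (Nn : Finset V) (Bd η : ℝ) (τ : J → V → ℝ) (m : ℝ),
    0 < Bd → 0 < η → η ≤ 1 → (∀ j u, 0 ≤ τ j u) →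
    (∀ j, ∀ u ∈ Nn, τ j u ≤
      ∑ ω ∈ univ.filter (fun ω => u ∈ f j ω ∧ ((f j ω ∩ Nn).card : ℝ) ≤ Bd), W ω) →
    (∀ u ∈ Nn, m ≤ ∑ j, τ j u) → ∀ y : ℝ,
    ∑ ω ∈ univ.filter (fun ω : J → Ω =>
        y ≤ ((Nn \ univ.biUnion (fun j => f j (ω j))).card : ℝ)), ∏ j, W (ω j) ≤
      Real.exp (-(η * (y - Real.exp (-((1 - η / 2) * m)) * (Nn.card : ℝ)) / Bd))

/-- LEVK: the levels with lag `K`, from the fixed point theorem of Brouwer -/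
def S_LEVK : Prop :=
  ∀ K : ℕ, 1 ≤ K → ∀ (V : Type) [Fintype V] (G : SimpleGraph V) (L : ℕ)
    (H : (V × Fin L → ℝ) → V × Fin L → ℝ) (a h d B : ℝ), Continuous H →
    (∀ y : V × Fin L → ℝ, (∀ p, 0 ≤ y p ∧ y p ≤ 1) → ∀ p, 0 ≤ H y p) →
    (∀ y : V × Fin L → ℝ, (∀ p, 0 ≤ y p ∧ y p ≤ 1) → ∀ l, ∑ v, H y (v, l) ≤ a * ∑ v, y (v, l)) →
    (∀ v, ((nb G v).card : ℝ) ≤ d) → 0 < h → 0 < B → 0 ≤ a → 0 ≤ d →
    2 * a * (2 * (d / B + 1)) ^ K < h → 2 * K ≤ L → Fintype.card V < 2 ^ (L - 2 * K + 1) →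
    ∃ (cl : V → ℕ) (y : V × Fin L → ℝ), (∀ p, 0 ≤ y p ∧ y p ≤ 1) ∧
      (∀ v, K ≤ cl v + 1 ∧ cl v + K < L) ∧
      (∀ (v : V) (l : Fin L), (l : ℕ) ≤ cl v → y (v, l) = 1) ∧
      (∀ (v : V) (l : Fin L), (l : ℕ) ≤ cl v → cl v < l + K → H y (v, l) ≤ h) ∧
      ∀ v, (((nb G v).filter (fun u => cl v + 2 ≤ cl u)).card : ℝ) ≤ B

/-- the numerical conditions for one phase; `exp y` is the degree, `δ` the relative decrease,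
`K + 1` the number of offsets, `k` the number of cycles -/
def NumOk (t s : ℕ) (y δ : ℝ) (K k : ℕ) : Prop :=
  ∃ (g q eh ph M E κ B Bd h Θ R τ η : ℝ) (S : ℕ),
    0 < g ∧ g ≤ 1 ∧ 0 < q ∧ 0 < eh ∧ 0 < ph ∧ 0 < κ ∧ 0 < B ∧ 1 ≤ Bd ∧ 0 < h ∧ 0 < τ ∧
    0 < η ∧ η ≤ 1 ∧ 1 ≤ S ∧
    M = Real.exp ((1 + g) ^ 2 * ph) ∧ E = (1 + g) * eh ∧
    q * M ≤ g / 2 ∧ q * E ≤ g / 2 ∧ Real.exp y ≤ E ∧
    2 * (S * ((s + t ^ 2) * M * E ^ (2 * t - 1))) * (2 * (Real.exp y / B + 1)) ^ (K + 1) < h ∧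
    Θ = κ * E ^ 2 * S + h / (E ^ (2 * t - 2) * κ ^ t ^ 2) ∧
    R * (q * (eh ^ 2 / 4 + ph * M * eh) + ph * eh / S) ≤
      q * (ph * (eh - Real.exp y) - 2 * q * ph * Θ) ∧
    τ ≤ (1 - 1 / Bd) * ((1 - q * E) * R) - B * (q * S) ^ 2 -
      Real.exp y / Bd * (2 * M * (q * S) ^ 2) ∧
    4 * Real.exp (-(η * ((1 - δ) * Real.exp y -
        Real.exp (-((1 - η / 2) * (k * K * τ))) * Real.exp y) / Bd)) *
      ((⌊Real.exp y⌋₊ + 1) ^ (2 * (2 * S + 2)) : ℕ) ≤ 1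

/-- NUM: the parameters can be chosen -/
def S_NUM2 : Prop :=
  ∀ t s : ℕ, 1 ≤ t → ∀ ε : ℝ, 0 < ε → ∃ δ : ℝ, 0 < δ ∧ δ < 1 ∧ ∃ (K : ℕ) (y0 : ℝ), 1 ≤ y0 ∧
    ∀ y : ℝ, y0 ≤ y → ∃ k : ℕ, (k : ℝ) * (K + 1) ≤ (1 + ε) * δ * Real.exp y / y ∧
      NumOk t s y δ K k

/-- one phase: all degrees decrease by the factor `1 - δ` -/
def S_PHASE : Prop :=
  ∀ t s : ℕ, 1 ≤ t → ∀ ε : ℝ, 0 < ε → ∃ δ : ℝ, 0 < δ ∧ δ < 1 ∧ ∃ y0 : ℝ, 1 ≤ y0 ∧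
    ∀ y : ℝ, y0 ≤ y → ∃ n : ℕ, (n : ℝ) ≤ (1 + ε) * δ * Real.exp y / y ∧
      ∀ (V : Type) [Fintype V] (G : SimpleGraph V),
        Pool.Agent.K1H34.UHC.Rare G t s → (∀ v, ((nb G v).card : ℝ) ≤ Real.exp y) →
        ∃ U : Finset V, Pool.Agent.K1H34.UHC.Col G U n ∧
          ∀ v, ((nb G v \ U).card : ℝ) ≤ (1 - δ) * Real.exp y

/-- all phases -/
def S_ALL : Prop :=
  ∀ t s : ℕ, 1 ≤ t → ∀ ε : ℝ, 0 < ε → ∃ y0 : ℝ, ∀ y : ℝ, y0 ≤ y →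
    ∀ (V : Type) [Fintype V] (G : SimpleGraph V),
      Pool.Agent.K1H34.UHC.Rare G t s → (∀ v, ((nb G v).card : ℝ) ≤ Real.exp y) →
      ∃ n : ℕ, (n : ℝ) ≤ (1 + ε) * Real.exp y / y ∧ Pool.Agent.K1H34.UHC.Col G univ n

end Pool.Agent.H21.UC
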