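import Mathlib
import Pool.Graph.R_pool_sql_team_seeded_efc1946e.K1H34.UNI.Stm

set_option autoImplicit false

/-!
# One step of the random process
-/

namespace Pool.Agent.H21.UC

open Finset Classical
open Pool.Agent.K1H34.UNI (nb Pr es KK TT Dep)

variable {X : Type} [Fintype X] {Γ : SimpleGraph X}

theorem mem_nb {u v : X} : u ∈ nb Γ v ↔ Γ.Adj v u := by simp [nb]

theorem mem_nb_comm {u v : X} : u ∈ nb Γ v ↔ v ∈ nb Γ u := by
  rw [mem_nb, mem_nb, Γ.adj_comm]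

theorem notMem_nb_self (v : X) : v ∉ nb Γ v := by
  rw [mem_nb]; exact Γ.irrefl

/-- parameters: step size, soft cap for the neighbour weights, soft cap for the exponent, slack -/
structure Par where
  /-- slack -/
  g : ℝ
  /-- step size -/
  q : ℝ
  /-- soft cap for the weight of the neighbours -/
  eh : ℝ
  /-- soft cap for the exponent -/
  ph : ℝ

/-- bound for the weights -/
noncomputable def Par.M (P : Par) : ℝ := Real.exp ((1 + P.g) ^ 2 * P.ph)

/-- admissible parameters -/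
structure Par.Ok (P : Par) : Prop where
  g0 : 0 < P.g
  g1 : P.g ≤ 1
  q0 : 0 < P.q
  e0 : 0 < P.eh
  p0 : 0 < P.ph
  qM : P.q * P.M ≤ P.g / 2
  qe : P.q * ((1 + P.g) * P.eh) ≤ P.g / 2

/-- compensation for the risk of being blocked -/
noncomputable def gain (Γ : SimpleGraph X) (q : ℝ) (x : X → ℝ) (v : X) : ℝ :=
  ∏ u ∈ nb Γ v, (max (1 / 2) (1 - q * x u))⁻¹

/-- the new weight, before the caps -/
noncomputable def pre (Γ : SimpleGraph X) (q : ℝ) (x : X → ℝ) (A : Finset X) (v : X) : ℝ :=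
  if Disjoint A (insert v (nb Γ v)) then x v * gain Γ q x v else 0

/-- soft cap -/
noncomputable def cut (g s : ℝ) : ℝ := max 0 (min 1 ((1 + g - s) / g))

/-- states: weights and exponents -/
abbrev St (X : Type) := (X → ℝ) × (X → ℝ)

/-- the next state -/
noncomputable def nx (Γ : SimpleGraph X) (P : Par) (s : St X) (A : Finset X) : St X :=
  (fun v => pre Γ P.q s.1 A v * (cut P.g ((s.2 v + P.q * es Γ s.1 v) / P.ph) *
    cut P.g ((∑ u ∈ nb Γ v, pre Γ P.q s.1 A u) / P.eh)), fun v => s.2 v + P.q * es Γ s.1 v)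

/-- the one step operator -/
noncomputable def Op (Γ : SimpleGraph X) (P : Par) (f : St X → ℝ) : St X → ℝ :=
  fun s => ∑ A : Finset X, Pr P.q s.1 A * f (nx Γ P s A)

/-- invariants -/
def Inv (Γ : SimpleGraph X) (P : Par) (s : St X) : Prop :=
  ∀ v, 0 ≤ s.1 v ∧ 0 ≤ s.2 v ∧ s.1 v ≤ Real.exp ((1 + P.g) * s.2 v) ∧
    (0 < s.1 v → s.2 v ≤ (1 + P.g) * P.ph ∧ es Γ s.1 v ≤ (1 + P.g) * P.eh)

theorem cut_nonneg (g s : ℝ) : 0 ≤ cut g s := le_max_left _ _

theorem cut_le_one (g s : ℝ) : cut g s ≤ 1 := max_le zero_le_one (min_le_left _ _)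

theorem lt_of_cut_pos {g s : ℝ} (hg : 0 < g) (h : 0 < cut g s) : s < 1 + g := by
  unfold cut at h
  rcases lt_max_iff.1 h with h | h
  · exact absurd h (lt_irrefl _)
  · have := (lt_min_iff.1 h).2
    rw [lt_div_iff₀ hg, zero_mul] at this
    linarith

theorem cut_eq_one {g s : ℝ} (hg : 0 < g) (h : s ≤ 1) : cut g s = 1 := by
  unfold cut
  rw [min_eq_left (by rw [le_div_iff₀ hg]; linarith)]
  exact max_eq_right zero_le_one

theorem one_lt_of_cut {g s : ℝ} (hg : 0 < g) (h : cut g s ≠ 1) : 1 < s := by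
  by_contra hcon
  exact h (cut_eq_one hg (not_lt.1 hcon))

/-! ## the weights `Pr` -/

theorem sum_Pr_disjoint (q : ℝ) (x : X → ℝ) (D : Finset X) :
    ∑ A : Finset X, Pr q x A * (if Disjoint A D then 1 else 0) = ∏ u ∈ D, (1 - q * x u) := by
  have h1 := Finset.prod_add (fun i => if i ∈ D then 0 else q * x i) (fun i => 1 - q * x i)
    (univ : Finset X)
  have h2 : ∏ i : X, ((if i ∈ D then 0 else q * x i) + (1 - q * x i)) =
      ∏ u ∈ D, (1 - q * x u) := by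
    rw [← Finset.prod_subset (Finset.subset_univ D)]
    · refine Finset.prod_congr rfl fun i hi => ?_
      simp [hi]
    · intro i _ hi
      simp [hi]
  rw [← h2, h1, Finset.powerset_univ]
  refine Finset.sum_congr rfl fun A _ => ?_
  unfold Pr
  by_cases h : Disjoint A D
  · rw [if_pos h, mul_one]
    congr 1
    refine Finset.prod_congr rfl fun i hi => ?_
    rw [if_neg (Finset.disjoint_left.1 h hi)]
  · rw [if_neg h, mul_zero]
    rw [Finset.not_disjoint_iff] at h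
    obtain ⟨i, hi, hi'⟩ := h
    rw [Finset.prod_eq_zero hi (by rw [if_pos hi']), zero_mul]

theorem sum_Pr (q : ℝ) (x : X → ℝ) : ∑ A : Finset X, Pr q x A = 1 := by
  have := sum_Pr_disjoint q x ∅
  simpa using this

theorem Pr_nonneg {q : ℝ} {x : X → ℝ} (h0 : ∀ v, 0 ≤ q * x v) (h1 : ∀ v, q * x v ≤ 1)
    (A : Finset X) : 0 ≤ Pr q x A :=
  mul_nonneg (Finset.prod_nonneg fun v _ => h0 v)
    (Finset.prod_nonneg fun v _ => by linarith [h1 v])

/-- activation of one vertex, no activation in a set -/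
theorem sum_Pr_mem (q : ℝ) (x : X → ℝ) (D : Finset X) {v : X} (hv : v ∉ D) :
    ∑ A : Finset X, Pr q x A * (if v ∈ A ∧ Disjoint A D then 1 else 0) =
      q * x v * ∏ u ∈ D, (1 - q * x u) := by
  have h1 := sum_Pr_disjoint q x D
  have h2 := sum_Pr_disjoint q x (insert v D)
  rw [Finset.prod_insert hv] at h2
  have h3 : ∑ A : Finset X, Pr q x A * (if v ∈ A ∧ Disjoint A D then 1 else 0) =
      ∑ A : Finset X, Pr q x A * (if Disjoint A D then 1 else 0) -
      ∑ A : Finset X, Pr q x A * (if Disjoint A (insert v D) then 1 else 0) := by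
    rw [← Finset.sum_sub_distrib]
    refine Finset.sum_congr rfl fun A _ => ?_
    rw [← mul_sub]
    congr 1
    by_cases a : v ∈ A <;> by_cases b : Disjoint A D <;>
      simp [a, b, Finset.disjoint_insert_right]
  rw [h3, h1, h2]
  ring

/-- activation of two vertices -/
theorem sum_Pr_mem2 (q : ℝ) (x : X → ℝ) {u v : X} (huv : u ≠ v) :
    ∑ A : Finset X, Pr q x A * (if u ∈ A ∧ v ∈ A then 1 else 0) = q * x u * (q * x v) := by
  have h1 := sum_Pr_mem q x ∅ (v := u) (Finset.notMem_empty _)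
  have h2 := sum_Pr_mem q x {v} (v := u) (by simpa using huv)
  have h3 : ∑ A : Finset X, Pr q x A * (if u ∈ A ∧ v ∈ A then 1 else 0) =
      ∑ A : Finset X, Pr q x A * (if u ∈ A ∧ Disjoint A ∅ then 1 else 0) -
      ∑ A : Finset X, Pr q x A * (if u ∈ A ∧ Disjoint A {v} then 1 else 0) := by
    rw [← Finset.sum_sub_distrib]
    refine Finset.sum_congr rfl fun A _ => ?_
    rw [← mul_sub]
    congr 1
    by_cases a : u ∈ A <;> by_cases b : v ∈ A <;> simp [a, b]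
  rw [h3, h1, h2, Finset.prod_empty, Finset.prod_singleton]
  ring

/-! ## invariants -/

section inv

variable {P : Par} {s : St X}

theorem Inv.le_M (hP : P.Ok) (h : Inv Γ P s) (v : X) : s.1 v ≤ P.M := by
  rcases (h v).1.eq_or_lt with h0 | h0
  · rw [← h0]; exact (Real.exp_pos _).le
  · refine (h v).2.2.1.trans ?_
    unfold Par.M
    rw [Real.exp_le_exp]
    have h1 := mul_le_mul_of_nonneg_left ((h v).2.2.2 h0).1 (by linarith [hP.g0] : 0 ≤ 1 + P.g)
    linarith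

theorem Inv.q_nonneg (hP : P.Ok) (h : Inv Γ P s) (v : X) : 0 ≤ P.q * s.1 v :=
  mul_nonneg hP.q0.le (h v).1

theorem Inv.q_g (hP : P.Ok) (h : Inv Γ P s) (v : X) : P.q * s.1 v ≤ P.g / 2 :=
  (mul_le_mul_of_nonneg_left (h.le_M hP v) hP.q0.le).trans hP.qM

theorem Inv.q_half (hP : P.Ok) (h : Inv Γ P s) (v : X) : P.q * s.1 v ≤ 1 / 2 :=
  (h.q_g hP v).trans (by linarith [hP.g1])

theorem Inv.gain_eq (hP : P.Ok) (h : Inv Γ P s) (v : X) :
    gain Γ P.q s.1 v = ∏ u ∈ nb Γ v, (1 - P.q * s.1 u)⁻¹ := by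
  refine Finset.prod_congr rfl fun u _ => ?_
  rw [max_eq_right]
  linarith [h.q_half hP u]

theorem inv_le_exp {g a : ℝ} (hg : 0 < g) (hg1 : g ≤ 1) (h0 : 0 ≤ a) (h1 : a ≤ g / 2) :
    (1 - a)⁻¹ ≤ Real.exp ((1 + g) * a) := by
  have h2 : 1 + (1 + g) * a ≤ Real.exp ((1 + g) * a) := by
    linarith [Real.add_one_le_exp ((1 + g) * a)]
  refine le_trans ?_ h2
  rw [inv_le_iff_one_le_mul₀ (by linarith)]
  nlinarith [mul_nonneg h0 (by nlinarith : (0 : ℝ) ≤ g - (1 + g) * a)]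

theorem gain_nonneg (q : ℝ) (x : X → ℝ) (v : X) : 0 ≤ gain Γ q x v :=
  Finset.prod_nonneg fun u _ => inv_nonneg.2 (le_trans (by norm_num) (le_max_left _ _))

theorem Inv.gain_le (hP : P.Ok) (h : Inv Γ P s) (v : X) :
    gain Γ P.q s.1 v ≤ Real.exp ((1 + P.g) * (P.q * es Γ s.1 v)) := by
  rw [h.gain_eq hP, es, Finset.mul_sum, Finset.mul_sum, Real.exp_sum]
  refine Finset.prod_le_prod (fun u _ => inv_nonneg.2 (by linarith [h.q_half hP u])) fun u _ => ?_
  exact inv_le_exp hP.g0 hP.g1 (h.q_nonneg hP u) (h.q_g hP u)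

theorem Inv.pre_nonneg (h : Inv Γ P s) (A : Finset X) (v : X) : 0 ≤ pre Γ P.q s.1 A v := by
  unfold pre
  split_ifs
  · exact mul_nonneg (h v).1 (gain_nonneg _ _ _)
  · exact le_rfl

theorem es_nonneg {x : X → ℝ} (h : ∀ v, 0 ≤ x v) (v : X) : 0 ≤ es Γ x v :=
  Finset.sum_nonneg fun u _ => h u

theorem Inv.es_nonneg (h : Inv Γ P s) (v : X) : 0 ≤ es Γ s.1 v :=
  Finset.sum_nonneg fun u _ => (h u).1

/-- the product of the two caps -/
noncomputable def cc (Γ : SimpleGraph X) (P : Par) (s : St X) (A : Finset X) (v : X) : ℝ :=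
  cut P.g ((s.2 v + P.q * es Γ s.1 v) / P.ph) *
    cut P.g ((∑ u ∈ nb Γ v, pre Γ P.q s.1 A u) / P.eh)

theorem cc_nonneg (P : Par) (s : St X) (A : Finset X) (v : X) : 0 ≤ cc Γ P s A v :=
  mul_nonneg (cut_nonneg _ _) (cut_nonneg _ _)

theorem cc_le_one (P : Par) (s : St X) (A : Finset X) (v : X) : cc Γ P s A v ≤ 1 :=
  mul_le_one₀ (cut_le_one _ _) (cut_nonneg _ _) (cut_le_one _ _)

theorem nx_fst (P : Par) (s : St X) (A : Finset X) (v : X) :
    (nx Γ P s A).1 v = pre Γ P.q s.1 A v * cc Γ P s A v := rfl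

theorem nx_snd (P : Par) (s : St X) (A : Finset X) (v : X) :
    (nx Γ P s A).2 v = s.2 v + P.q * es Γ s.1 v := rfl

theorem Inv.nx_le (h : Inv Γ P s) (A : Finset X) (v : X) :
    (nx Γ P s A).1 v ≤ pre Γ P.q s.1 A v := by
  rw [nx_fst]
  exact mul_le_of_le_one_right (h.pre_nonneg A v) (cc_le_one _ _ _ _)

theorem Inv.nx_nonneg (h : Inv Γ P s) (A : Finset X) (v : X) : 0 ≤ (nx Γ P s A).1 v :=
  mul_nonneg (h.pre_nonneg A v) (cc_nonneg _ _ _ _)

theorem Inv.es_nx_le (h : Inv Γ P s) (A : Finset X) (v : X) :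
    es Γ (nx Γ P s A).1 v ≤ ∑ u ∈ nb Γ v, pre Γ P.q s.1 A u :=
  Finset.sum_le_sum fun u _ => h.nx_le A u

theorem Inv.nx (hP : P.Ok) (h : Inv Γ P s) (A : Finset X) : Inv Γ P (nx Γ P s A) := by
  intro v
  have he := h.es_nonneg v
  refine ⟨h.nx_nonneg A v, ?_, ?_, ?_⟩
  · rw [nx_snd]
    have := (h v).2.1
    have := mul_nonneg hP.q0.le he
    linarith
  · refine (h.nx_le A v).trans ?_
    rw [nx_snd]
    unfold pre
    split_ifs
    · calc s.1 v * gain Γ P.q s.1 v ≤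
            Real.exp ((1 + P.g) * s.2 v) * Real.exp ((1 + P.g) * (P.q * es Γ s.1 v)) :=
            mul_le_mul (h v).2.2.1 (h.gain_le hP v) (gain_nonneg _ _ _) (Real.exp_pos _).le
        _ = _ := by rw [← Real.exp_add]; ring_nf
    · exact (Real.exp_pos _).le
  · intro hpos
    rw [nx_fst] at hpos
    have h1 : 0 < cc Γ P s A v := by
      rcases (cc_nonneg P s A v).eq_or_lt with h0 | h0
      · rw [← h0, mul_zero] at hpos
        exact absurd hpos (lt_irrefl _)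
      · exact h0
    unfold cc at h1
    have h2 : 0 < cut P.g ((s.2 v + P.q * es Γ s.1 v) / P.ph) := by
      rcases (cut_nonneg P.g ((s.2 v + P.q * es Γ s.1 v) / P.ph)).eq_or_lt with h0 | h0
      · rw [← h0, zero_mul] at h1
        exact absurd h1 (lt_irrefl _)
      · exact h0
    have h3 : 0 < cut P.g ((∑ u ∈ nb Γ v, pre Γ P.q s.1 A u) / P.eh) := by
      rcases (cut_nonneg P.g ((∑ u ∈ nb Γ v, pre Γ P.q s.1 A u) / P.eh)).eq_or_lt with h0 | h0
      · rw [← h0, mul_zero] at h1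
        exact absurd h1 (lt_irrefl _)
      · exact h0
    have h4 := lt_of_cut_pos hP.g0 h2
    have h5 := lt_of_cut_pos hP.g0 h3
    rw [div_lt_iff₀ hP.p0] at h4
    rw [div_lt_iff₀ hP.e0] at h5
    exact ⟨by rw [nx_snd]; exact h4.le, (h.es_nx_le A v).trans h5.le⟩

/-! ## expectations of the new weights -/

theorem one_sub_sum_le {ι : Type} (D : Finset ι) (f : ι → ℝ) :
    (∀ w ∈ D, 0 ≤ f w) → (∀ w ∈ D, f w ≤ 1) → 1 - ∑ w ∈ D, f w ≤ ∏ w ∈ D, (1 - f w) := by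
  induction D using Finset.induction_on with
  | empty => simp
  | insert a D ha ih =>
    intro h0 h1
    rw [Finset.sum_insert ha, Finset.prod_insert ha]
    have h2 := ih (fun w hw => h0 w (Finset.mem_insert_of_mem hw))
      (fun w hw => h1 w (Finset.mem_insert_of_mem hw))
    have h3 := h0 a (Finset.mem_insert_self _ _)
    have h4 := h1 a (Finset.mem_insert_self _ _)
    have h5 : 0 ≤ ∑ w ∈ D, f w :=
      Finset.sum_nonneg fun w hw => h0 w (Finset.mem_insert_of_mem hw)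
    nlinarith

theorem Inv.q_es_le (hP : P.Ok) (h : Inv Γ P s) {v : X} (hv : 0 < s.1 v) :
    P.q * es Γ s.1 v ≤ 1 / 2 :=
  ((mul_le_mul_of_nonneg_left ((h v).2.2.2 hv).2 hP.q0.le).trans hP.qe).trans
    (by linarith [hP.g1])

theorem Inv.one_sub_pos (hP : P.Ok) (h : Inv Γ P s) (u : X) : 0 < 1 - P.q * s.1 u := by
  linarith [h.q_half hP u]

theorem sum_pre (hP : P.Ok) (h : Inv Γ P s) (v : X) :
    ∑ A : Finset X, Pr P.q s.1 A * pre Γ P.q s.1 A v = s.1 v * (1 - P.q * s.1 v) := by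
  have h1 : ∀ A : Finset X, Pr P.q s.1 A * pre Γ P.q s.1 A v =
      s.1 v * gain Γ P.q s.1 v *
        (Pr P.q s.1 A * (if Disjoint A (insert v (nb Γ v)) then 1 else 0)) := by
    intro A
    unfold pre
    split_ifs <;> ring
  rw [Finset.sum_congr rfl fun A _ => h1 A, ← Finset.mul_sum, sum_Pr_disjoint,
    Finset.prod_insert (notMem_nb_self v), h.gain_eq hP, Finset.prod_inv_distrib]
  have h2 : ∏ u ∈ nb Γ v, (1 - P.q * s.1 u) ≠ 0 :=
    Finset.prod_ne_zero_iff.2 fun u _ => (h.one_sub_pos hP u).ne'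
  field_simp

theorem sum_pre_pre (hP : P.Ok) (h : Inv Γ P s) {u v : X} (huv : u ∈ nb Γ v) (hv : 0 < s.1 v) :
    ∑ A : Finset X, Pr P.q s.1 A * (pre Γ P.q s.1 A v * pre Γ P.q s.1 A u) ≤
      s.1 v * s.1 u + 2 * P.q * (s.1 v * ∑ w ∈ nb Γ v ∩ nb Γ u, s.1 u * s.1 w) := by
  have h1 : ∀ A : Finset X, Pr P.q s.1 A * (pre Γ P.q s.1 A v * pre Γ P.q s.1 A u) =
      s.1 v * gain Γ P.q s.1 v * (s.1 u * gain Γ P.q s.1 u) *
        (Pr P.q s.1 A * (if Disjoint A (nb Γ v ∪ nb Γ u) then 1 else 0)) := by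
    intro A
    have h2 : Disjoint A (nb Γ v ∪ nb Γ u) ↔
        Disjoint A (insert v (nb Γ v)) ∧ Disjoint A (insert u (nb Γ u)) := by
      rw [Finset.disjoint_union_right, Finset.disjoint_insert_right,
        Finset.disjoint_insert_right]
      constructor
      · rintro ⟨a, b⟩
        exact ⟨⟨fun hv' => Finset.disjoint_left.1 b hv' (mem_nb_comm.1 huv), a⟩,
          fun hu' => Finset.disjoint_left.1 a hu' huv, b⟩
      · rintro ⟨⟨_, a⟩, _, b⟩
        exact ⟨a, b⟩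
    unfold pre
    by_cases a : Disjoint A (insert v (nb Γ v)) <;> by_cases b : Disjoint A (insert u (nb Γ u))
    · rw [if_pos a, if_pos b, if_pos (h2.2 ⟨a, b⟩)]; ring
    · rw [if_neg b, if_neg (fun hc => b (h2.1 hc).2)]; ring
    · rw [if_neg a, if_neg (fun hc => a (h2.1 hc).1)]; ring
    · rw [if_neg a, if_neg (fun hc => a (h2.1 hc).1)]; ring
  rw [Finset.sum_congr rfl fun A _ => h1 A, ← Finset.mul_sum, sum_Pr_disjoint,
    h.gain_eq hP, h.gain_eq hP, Finset.prod_inv_distrib, Finset.prod_inv_distrib]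
  have h2 : ∀ D : Finset X, 0 < ∏ u ∈ D, (1 - P.q * s.1 u) := fun D =>
    Finset.prod_pos fun u _ => h.one_sub_pos hP u
  have h3 := Finset.prod_union_inter (s₁ := nb Γ v) (s₂ := nb Γ u)
    (f := fun u => 1 - P.q * s.1 u)
  set Pv := ∏ u ∈ nb Γ v, (1 - P.q * s.1 u)
  set Pu := ∏ u ∈ nb Γ u, (1 - P.q * s.1 u)
  set Pi := ∏ u ∈ nb Γ v ∩ nb Γ u, (1 - P.q * s.1 u) with hPi
  set Pn := ∏ u ∈ nb Γ v ∪ nb Γ u, (1 - P.q * s.1 u)
  have hPv : 0 < Pv := h2 _
  have hPu : 0 < Pu := h2 _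
  have hPi0 : 0 < Pi := h2 _
  have h4 : s.1 v * Pv⁻¹ * (s.1 u * Pu⁻¹) * Pn = s.1 v * s.1 u * Pi⁻¹ := by
    rw [← mul_comm Pi] at h3
    field_simp
    linear_combination s.1 u * h3
  rw [h4]
  have h5 : ∑ w ∈ nb Γ v ∩ nb Γ u, P.q * s.1 w ≤ 1 / 2 := by
    rw [← Finset.mul_sum]
    refine le_trans (mul_le_mul_of_nonneg_left ?_ hP.q0.le) (h.q_es_le hP hv)
    exact Finset.sum_le_sum_of_subset_of_nonneg Finset.inter_subset_left fun w _ _ => (h w).1
  have h6 : 1 - ∑ w ∈ nb Γ v ∩ nb Γ u, P.q * s.1 w ≤ Pi := by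
    rw [hPi]
    exact one_sub_sum_le _ _ (fun w _ => h.q_nonneg hP w)
      (fun w _ => by linarith [h.q_half hP w])
  have h7 : Pi⁻¹ ≤ 1 + 2 * ∑ w ∈ nb Γ v ∩ nb Γ u, P.q * s.1 w := by
    have h8 : 0 ≤ ∑ w ∈ nb Γ v ∩ nb Γ u, P.q * s.1 w :=
      Finset.sum_nonneg fun w _ => h.q_nonneg hP w
    rw [inv_le_iff_one_le_mul₀ hPi0]
    nlinarith
  calc s.1 v * s.1 u * Pi⁻¹ ≤
        s.1 v * s.1 u * (1 + 2 * ∑ w ∈ nb Γ v ∩ nb Γ u, P.q * s.1 w) :=
        mul_le_mul_of_nonneg_left h7 (mul_nonneg (h v).1 (h u).1)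
    _ = _ := by
        rw [← Finset.mul_sum, ← Finset.mul_sum]; ring

end inv

end Pool.Agent.H21.UC
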