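import Mathlib
import Pool.Agent.H21.UC.Step

set_option autoImplicit false

/-!
# The one step operator, the potential function, and survival
-/

namespace Pool.Agent.H21.UC

open Finset Classical
open Pool.Agent.K1H34.UNI (nb Pr es KK TT Dep)

variable {X : Type} [Fintype X] {Γ : SimpleGraph X} {P : Par} {s : St X}

theorem Inv.Pr_nonneg (hP : P.Ok) (h : Inv Γ P s) (A : Finset X) : 0 ≤ Pr P.q s.1 A :=
  UC.Pr_nonneg (fun v => h.q_nonneg hP v) (fun v => by linarith [h.q_half hP v]) A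

theorem Op_mono (hP : P.Ok) (h : Inv Γ P s) {f g : St X → ℝ}
    (hfg : ∀ s', Inv Γ P s' → f s' ≤ g s') : Op Γ P f s ≤ Op Γ P g s :=
  Finset.sum_le_sum fun A _ => mul_le_mul_of_nonneg_left (hfg _ (h.nx hP A)) (h.Pr_nonneg hP A)

theorem iter_mono (hP : P.Ok) {f g : St X → ℝ} (hfg : ∀ s', Inv Γ P s' → f s' ≤ g s') (n : ℕ) :
    ∀ s, Inv Γ P s → (Op Γ P)^[n] f s ≤ (Op Γ P)^[n] g s := by
  induction n with
  | zero => exact hfg
  | succ n ih =>
    intro s h
    rw [Function.iterate_succ_apply', Function.iterate_succ_apply']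
    exact Op_mono hP h ih

theorem Op_add (f g : St X → ℝ) : Op Γ P (fun s => f s + g s) = fun s => Op Γ P f s + Op Γ P g s := by
  funext s
  unfold Op
  rw [← Finset.sum_add_distrib]
  exact Finset.sum_congr rfl fun A _ => mul_add _ _ _

theorem Op_smul (c : ℝ) (f : St X → ℝ) : Op Γ P (fun s => c * f s) = fun s => c * Op Γ P f s := by
  funext s
  unfold Op
  rw [Finset.mul_sum]
  exact Finset.sum_congr rfl fun A _ => by ring

theorem Op_const (c : ℝ) : Op Γ P (fun _ => c) = fun _ => c := by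
  funext s
  unfold Op
  rw [← Finset.sum_mul, sum_Pr, one_mul]

theorem iter_add (n : ℕ) (f g : St X → ℝ) :
    (Op Γ P)^[n] (fun s => f s + g s) = fun s => (Op Γ P)^[n] f s + (Op Γ P)^[n] g s := by
  induction n generalizing f g with
  | zero => rfl
  | succ n ih =>
    rw [Function.iterate_succ_apply, Function.iterate_succ_apply, Function.iterate_succ_apply,
      Op_add, ih]

theorem iter_smul (n : ℕ) (c : ℝ) (f : St X → ℝ) :
    (Op Γ P)^[n] (fun s => c * f s) = fun s => c * (Op Γ P)^[n] f s := by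
  induction n generalizing f with
  | zero => rfl
  | succ n ih =>
    rw [Function.iterate_succ_apply, Function.iterate_succ_apply, Op_smul, ih]

theorem iter_const (n : ℕ) (c : ℝ) : (Op Γ P)^[n] (fun _ => c) = fun _ => c := by
  induction n with
  | zero => rfl
  | succ n ih => rw [Function.iterate_succ_apply, Op_const, ih]

theorem iter_sum {ι : Type} (T : Finset ι) (n : ℕ) (f : ι → St X → ℝ) :
    (Op Γ P)^[n] (fun s => ∑ i ∈ T, f i s) = fun s => ∑ i ∈ T, (Op Γ P)^[n] (f i) s := by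
  induction T using Finset.induction_on with
  | empty =>
    simp only [Finset.sum_empty]
    exact iter_const n 0
  | insert a T ha ih =>
    simp only [Finset.sum_insert ha]
    rw [iter_add, ih]

theorem iter_nonneg (hP : P.Ok) {f : St X → ℝ} (hf : ∀ s', Inv Γ P s' → 0 ≤ f s') (n : ℕ)
    (h : Inv Γ P s) : 0 ≤ (Op Γ P)^[n] f s := by
  have := iter_mono hP (f := fun _ => 0) (g := f) hf n s h
  rwa [iter_const] at this

/-- the expected weight does not increase -/
theorem Op_x_le (hP : P.Ok) (h : Inv Γ P s) (v : X) : Op Γ P (fun s => s.1 v) s ≤ s.1 v := by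
  have h1 := sum_pre hP h v
  have h2 : Op Γ P (fun s => s.1 v) s ≤ ∑ A : Finset X, Pr P.q s.1 A * pre Γ P.q s.1 A v :=
    Finset.sum_le_sum fun A _ => mul_le_mul_of_nonneg_left (h.nx_le A v) (h.Pr_nonneg hP A)
  rw [h1] at h2
  have h3 := mul_nonneg (h v).1 (h.q_nonneg hP v)
  linarith

theorem iter_x_le (hP : P.Ok) (v : X) (n : ℕ) :
    ∀ s, Inv Γ P s → (Op Γ P)^[n] (fun s => s.1 v) s ≤ s.1 v := by
  induction n with
  | zero => intro s _; exact le_rfl
  | succ n ih =>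
    intro s h
    rw [Function.iterate_succ_apply']
    exact (Op_mono hP h ih).trans (Op_x_le hP h v)

theorem sum_pre_e (hP : P.Ok) (h : Inv Γ P s) (v : X) :
    ∑ A : Finset X, Pr P.q s.1 A * (pre Γ P.q s.1 A v * ∑ u ∈ nb Γ v, pre Γ P.q s.1 A u) ≤
      s.1 v * es Γ s.1 v + 2 * P.q * (s.1 v * TT Γ s.1 v) := by
  rcases (h v).1.eq_or_lt with h0 | h0
  · have h1 : ∀ A : Finset X, pre Γ P.q s.1 A v = 0 := by
      intro A
      unfold pre
      rw [← h0]; simp
    simp [h1, ← h0]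
  · have h1 : ∑ A : Finset X, Pr P.q s.1 A *
        (pre Γ P.q s.1 A v * ∑ u ∈ nb Γ v, pre Γ P.q s.1 A u) =
        ∑ u ∈ nb Γ v, ∑ A : Finset X, Pr P.q s.1 A *
          (pre Γ P.q s.1 A v * pre Γ P.q s.1 A u) := by
      rw [Finset.sum_comm]
      refine Finset.sum_congr rfl fun A _ => ?_
      rw [Finset.mul_sum, Finset.mul_sum]
    rw [h1]
    refine (Finset.sum_le_sum fun u hu => sum_pre_pre hP h hu h0).trans (le_of_eq ?_)
    rw [Finset.sum_add_distrib, ← Finset.mul_sum, ← Finset.mul_sum, ← Finset.mul_sum]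
    rfl

/-- growth of the correlation of a vertex with its neighbours -/
theorem Op_xe_le (hP : P.Ok) (h : Inv Γ P s) (v : X) :
    Op Γ P (fun s => s.1 v * es Γ s.1 v) s ≤
      s.1 v * es Γ s.1 v + 2 * P.q * (s.1 v * TT Γ s.1 v) := by
  refine le_trans (Finset.sum_le_sum fun A _ => mul_le_mul_of_nonneg_left ?_
    (h.Pr_nonneg hP A)) (sum_pre_e hP h v)
  exact mul_le_mul (h.nx_le A v) (h.es_nx_le A v)
    (Finset.sum_nonneg fun u _ => h.nx_nonneg A u) (h.pre_nonneg A v)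

/-- the potential function -/
noncomputable def Psi (Γ : SimpleGraph X) (P : Par) (v : X) (s : St X) : ℝ :=
  s.1 v * (max 0 (P.ph - s.2 v) * (P.eh - es Γ s.1 v))

theorem Psi_nx (hP : P.Ok) (h : Inv Γ P s) (v : X) (A : Finset X) :
    pre Γ P.q s.1 A v * (max 0 (P.ph - (s.2 v + P.q * es Γ s.1 v)) *
      (P.eh - ∑ u ∈ nb Γ v, pre Γ P.q s.1 A u)) ≤ Psi Γ P v (nx Γ P s A) := by
  unfold Psi
  rw [nx_snd]
  set e' := ∑ u ∈ nb Γ v, pre Γ P.q s.1 A u with he'
  have hx := h.nx_le A v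
  have hx0 := h.nx_nonneg A v
  have hp0 := h.pre_nonneg A v
  have hle : es Γ (nx Γ P s A).1 v ≤ e' := h.es_nx_le A v
  rcases le_or_gt (P.ph - (s.2 v + P.q * es Γ s.1 v)) 0 with hφ | hφ
  · rw [max_eq_left hφ, zero_mul, zero_mul, mul_zero, mul_zero]
  · have hφ1 : cut P.g ((s.2 v + P.q * es Γ s.1 v) / P.ph) = 1 :=
      cut_eq_one hP.g0 ((div_le_one hP.p0).2 (by linarith))
    rw [max_eq_right hφ.le]
    set a := P.ph - (s.2 v + P.q * es Γ s.1 v) with ha
    rcases le_or_gt e' P.eh with he | he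
    · have h1 : (nx Γ P s A).1 v = pre Γ P.q s.1 A v := by
        rw [nx_fst]
        unfold cc
        rw [hφ1, ← he', cut_eq_one hP.g0 ((div_le_one hP.e0).2 he)]
        ring
      rw [h1]
      exact mul_le_mul_of_nonneg_left (mul_le_mul_of_nonneg_left (by linarith) hφ.le) hp0
    · have h2 : a * (P.eh - e') ≤ 0 := mul_nonpos_of_nonneg_of_nonpos hφ.le (by linarith)
      calc pre Γ P.q s.1 A v * (a * (P.eh - e')) ≤ (nx Γ P s A).1 v * (a * (P.eh - e')) :=
            mul_le_mul_of_nonpos_right hx h2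
        _ ≤ _ := mul_le_mul_of_nonneg_left
            (mul_le_mul_of_nonneg_left (by linarith) hφ.le) hx0

theorem TT_nonneg {x : X → ℝ} (h : ∀ v, 0 ≤ x v) (v : X) : 0 ≤ TT Γ x v :=
  Finset.sum_nonneg fun u _ => Finset.sum_nonneg fun w _ => mul_nonneg (h u) (h w)

theorem Op_Psi (hP : P.Ok) (h : Inv Γ P s) (v : X) :
    Psi Γ P v s - P.q * (P.eh ^ 2 / 4 + P.ph * P.M * P.eh) * s.1 v -
      2 * P.q * P.ph * (s.1 v * TT Γ s.1 v) ≤ Op Γ P (Psi Γ P v) s := by
  have h1 : ∑ A : Finset X, Pr P.q s.1 A *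
      (pre Γ P.q s.1 A v * (max 0 (P.ph - (s.2 v + P.q * es Γ s.1 v)) *
        (P.eh - ∑ u ∈ nb Γ v, pre Γ P.q s.1 A u))) ≤ Op Γ P (Psi Γ P v) s :=
    Finset.sum_le_sum fun A _ => mul_le_mul_of_nonneg_left (Psi_nx hP h v A)
      (h.Pr_nonneg hP A)
  refine le_trans ?_ h1
  set a' := max 0 (P.ph - (s.2 v + P.q * es Γ s.1 v)) with ha'
  have h2 : ∑ A : Finset X, Pr P.q s.1 A *
      (pre Γ P.q s.1 A v * (a' * (P.eh - ∑ u ∈ nb Γ v, pre Γ P.q s.1 A u))) =
      a' * (P.eh * (∑ A : Finset X, Pr P.q s.1 A * pre Γ P.q s.1 A v) -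
      (∑ A : Finset X, Pr P.q s.1 A *
        (pre Γ P.q s.1 A v * ∑ u ∈ nb Γ v, pre Γ P.q s.1 A u))) := by
    rw [Finset.mul_sum, ← Finset.sum_sub_distrib, Finset.mul_sum]
    refine Finset.sum_congr rfl fun A _ => ?_
    ring
  rw [h2, sum_pre hP h v]
  have h3 := sum_pre_e hP h v
  have he0 := h.es_nonneg v
  have hx0 := (h v).1
  have hT0 : 0 ≤ TT Γ s.1 v := TT_nonneg (fun u => (h u).1) v
  have hq0 := hP.q0
  have hqe : 0 ≤ P.q * es Γ s.1 v := mul_nonneg hq0.le he0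
  have ha0 : 0 ≤ a' := le_max_left _ _
  set a := max 0 (P.ph - s.2 v) with ha
  have haa0 : 0 ≤ a := le_max_left _ _
  have haa' : a' ≤ a := max_le_max le_rfl (by linarith)
  have haph : a ≤ P.ph := max_le hP.p0.le (by linarith [(h v).2.1])
  have haq : a - P.q * es Γ s.1 v ≤ a' := by
    rcases le_total 0 (P.ph - s.2 v) with h4 | h4
    · rw [ha, max_eq_right h4, ha']
      exact le_trans (by linarith) (le_max_right _ _)
    · rw [ha, max_eq_left h4]
      linarith
  have h4 := mul_le_mul_of_nonneg_left h3 ha0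
  have h5 : a * (P.eh - es Γ s.1 v) - P.q * (P.eh ^ 2 / 4) ≤ a' * (P.eh - es Γ s.1 v) := by
    rcases le_total (es Γ s.1 v) P.eh with h6 | h6
    · have h7 : 0 ≤ P.eh - es Γ s.1 v := by linarith
      have h8 := mul_le_mul_of_nonneg_right haq h7
      have h9 : es Γ s.1 v * (P.eh - es Γ s.1 v) ≤ P.eh ^ 2 / 4 := by
        nlinarith [sq_nonneg (P.eh - 2 * es Γ s.1 v)]
      have h10 := mul_le_mul_of_nonneg_left h9 hq0.le
      nlinarith
    · have h8 := mul_le_mul_of_nonneg_right haa' (by linarith : 0 ≤ es Γ s.1 v - P.eh)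
      have h9 : 0 ≤ P.q * (P.eh ^ 2 / 4) := by positivity
      nlinarith
  have h6 : a' * (P.eh * (P.q * s.1 v)) ≤ P.q * (P.ph * P.M * P.eh) := by
    have e1 : a' * s.1 v ≤ P.ph * P.M :=
      mul_le_mul (haa'.trans haph) (h.le_M hP v) hx0 hP.p0.le
    have e2 := mul_le_mul_of_nonneg_left e1 (mul_nonneg hq0.le hP.e0.le)
    nlinarith
  have h7 : a' * TT Γ s.1 v ≤ P.ph * TT Γ s.1 v :=
    mul_le_mul_of_nonneg_right (haa'.trans haph) hT0
  have h8 := mul_le_mul_of_nonneg_left h5 hx0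
  have h9 := mul_le_mul_of_nonneg_left h6 hx0
  have h10 := mul_le_mul_of_nonneg_left h7 (mul_nonneg (by linarith : (0 : ℝ) ≤ 2 * P.q) hx0)
  unfold Psi
  nlinarith

/-- the total weight of a vertex of initial weight one -/
theorem surv (hP : P.Ok) (h : Inv Γ P s) {v : X} (hx : s.1 v = 1) (hφ : s.2 v = 0) {d Θ : ℝ}
    (hd : es Γ s.1 v ≤ d) (S : ℕ) (hS : 1 ≤ S)
    (hΘ : ∑ j ∈ range S, (Op Γ P)^[j] (fun s => s.1 v * TT Γ s.1 v) s ≤ Θ) :
    P.ph * (P.eh - d) - 2 * P.q * P.ph * Θ ≤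
      (P.q * (P.eh ^ 2 / 4 + P.ph * P.M * P.eh) + P.ph * P.eh / S) *
        ∑ i ∈ range S, (Op Γ P)^[i] (fun s => s.1 v) s := by
  have hpsi : ∀ n, Psi Γ P v s - P.q * (P.eh ^ 2 / 4 + P.ph * P.M * P.eh) *
        ∑ j ∈ range n, (Op Γ P)^[j] (fun s => s.1 v) s -
      2 * P.q * P.ph * ∑ j ∈ range n, (Op Γ P)^[j] (fun s => s.1 v * TT Γ s.1 v) s ≤
      (Op Γ P)^[n] (Psi Γ P v) s := by
    intro n
    induction n with
    | zero => simp
    | succ n ih =>
      rw [Function.iterate_succ_apply]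
      have h2 := iter_mono hP (g := Op Γ P (Psi Γ P v))
        (f := fun s => Psi Γ P v s + (-(P.q * (P.eh ^ 2 / 4 + P.ph * P.M * P.eh))) * s.1 v +
          (-(2 * P.q * P.ph)) * (s.1 v * TT Γ s.1 v))
        (fun s' h' => by
          have := Op_Psi hP h' v
          linarith) n s h
      rw [iter_add, iter_add, iter_smul, iter_smul] at h2
      rw [Finset.sum_range_succ, Finset.sum_range_succ]
      linarith
  have hph := hP.p0
  have heh := hP.e0
  have hq0 := hP.q0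
  have h3 := hpsi S
  have h4 : (Op Γ P)^[S] (Psi Γ P v) s ≤ P.ph * P.eh * (Op Γ P)^[S] (fun s => s.1 v) s := by
    have h5 := iter_mono hP (f := Psi Γ P v) (g := fun s => P.ph * P.eh * s.1 v)
      (fun s' h' => by
        unfold Psi
        have e1 := (h' v).1
        have e2 := (h' v).2.1
        have e3 := h'.es_nonneg v
        have e4 : max 0 (P.ph - s'.2 v) ≤ P.ph := max_le hph.le (by linarith)
        have e5 : 0 ≤ max 0 (P.ph - s'.2 v) := le_max_left _ _
        have e6 : max 0 (P.ph - s'.2 v) * (P.eh - es Γ s'.1 v) ≤ P.ph * P.eh := by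
          have e7 := mul_nonneg e5 e3
          have e8 := mul_le_mul_of_nonneg_right e4 heh.le
          nlinarith
        have e7 := mul_le_mul_of_nonneg_left e6 e1
        linarith) S s h
    rw [iter_smul] at h5
    exact h5
  have hmono : ∀ i, (Op Γ P)^[i + 1] (fun s => s.1 v) s ≤ (Op Γ P)^[i] (fun s => s.1 v) s := by
    intro i
    rw [Function.iterate_succ_apply]
    exact iter_mono hP (fun s' h' => Op_x_le hP h' v) i s h
  have hanti : Antitone fun i => (Op Γ P)^[i] (fun s => s.1 v) s := antitone_nat_of_succ_le hmono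
  have h5 : (S : ℝ) * (Op Γ P)^[S] (fun s => s.1 v) s ≤
      ∑ i ∈ range S, (Op Γ P)^[i] (fun s => s.1 v) s := by
    calc (S : ℝ) * (Op Γ P)^[S] (fun s => s.1 v) s =
          ∑ i ∈ range S, (Op Γ P)^[S] (fun s => s.1 v) s := by
          rw [Finset.sum_const, Finset.card_range, nsmul_eq_mul]
      _ ≤ _ := Finset.sum_le_sum fun i hi => hanti (Finset.mem_range.1 hi).le
  have hS0 : (0 : ℝ) < S := by exact_mod_cast hS
  have h6 : P.ph * P.eh * (Op Γ P)^[S] (fun s => s.1 v) s ≤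
      P.ph * P.eh / S * ∑ i ∈ range S, (Op Γ P)^[i] (fun s => s.1 v) s := by
    have := mul_le_mul_of_nonneg_left h5 (by positivity : 0 ≤ P.ph * P.eh / S)
    refine le_trans (le_of_eq ?_) this
    field_simp
  have h7 : P.ph * (P.eh - d) ≤ Psi Γ P v s := by
    unfold Psi
    rw [hx, hφ, one_mul, sub_zero, max_eq_right hph.le]
    exact mul_le_mul_of_nonneg_left (by linarith) hph.le
  have h8 := mul_le_mul_of_nonneg_left hΘ (by positivity : 0 ≤ 2 * P.q * P.ph)
  nlinarith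

end Pool.Agent.H21.UC
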