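import Mathlib
import Pool.Agent.H21.UC.Lay
import Pool.Agent.H21.UC.Stm

set_option autoImplicit false

/-!
# The random independent set, and one phase
-/

namespace Pool.Agent.H21.UC

open Finset Classical
open Pool.Agent.K1H34.UNI (nb Pr es KK TT Dep S_ONE S_SRC S_MASS S_KST)
open Pool.Agent.K1H34

variable {V : Type} [Fintype V] {G : SimpleGraph V} {L : ℕ}

/-- PAIR: two vertices with disjoint closed neighbourhoods are rarely picked both -/
def S_PAIR : Prop :=
  ∀ (X : Type) [Fintype X] (Γ : SimpleGraph X) (P : Par), P.Ok → ∀ u v : X,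
    (∀ w, (w = u ∨ w ∈ nb Γ u) → ¬ (w = v ∨ w ∈ nb Γ v)) → ∀ (n : ℕ) (s : St X), Inv Γ P s →
    tree Γ P n s (fun l => ind (u ∈ picked Γ P s l ∧ v ∈ picked Γ P s l)) ≤
      (P.q * n) ^ 2 * (s.1 u * s.1 v)

/-- the active picked vertices that are picked in their own layer, without conflict with the
vertices of higher layers -/
noncomputable def Uset (G : SimpleGraph V) (lv : V → Fin L) (Ac : Finset V)
    (I : Finset (V × Fin L)) : Finset V :=
  Ac.filter (fun u => (u, lv u) ∈ I ∧ ∀ u' ∈ nb G u, (lv u : ℕ) < lv u' → (u', lv u') ∉ I)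

theorem mem_Uset {lv : V → Fin L} {Ac : Finset V} {I : Finset (V × Fin L)} {u : V} :
    u ∈ Uset G lv Ac I ↔ u ∈ Ac ∧ (u, lv u) ∈ I ∧
      ∀ u' ∈ nb G u, (lv u : ℕ) < lv u' → (u', lv u') ∉ I := by simp [Uset]

theorem Uset_ind {lv : V → Fin L} {Ac : Finset V} {I : Finset (V × Fin L)}
    (hI : ∀ a ∈ I, ∀ b ∈ I, ¬ (lay G L).Adj a b) :
    ∀ u ∈ Uset G lv Ac I, ∀ v ∈ Uset G lv Ac I, ¬ G.Adj u v := by
  intro u hu v hv huv
  rw [mem_Uset] at hu hv
  rcases lt_trichotomy (lv u : ℕ) (lv v) with h1 | h1 | h1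
  · exact hu.2.2 v (mem_nb.2 huv) h1 hv.2.1
  · exact hI _ hu.2.1 _ hv.2.1 ⟨huv, Fin.ext h1⟩
  · exact hv.2.2 u (mem_nb.2 huv.symm) h1 hu.2.1

theorem Uset_congr {lv : V → Fin L} {Ac : Finset V} {I I' : Finset (V × Fin L)} {u : V}
    (h : ∀ u' ∈ nbh G {u}, ((u', lv u') ∈ I ↔ (u', lv u') ∈ I')) :
    u ∈ Uset G lv Ac I ↔ u ∈ Uset G lv Ac I' := by
  have h0 := h u (subset_nbh _ (Finset.mem_singleton_self u))
  have h1 : ∀ u' ∈ nb G u, ((u', lv u') ∈ I ↔ (u', lv u') ∈ I') := fun u' hu' =>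
    h u' (nb_subset_nbh (Finset.mem_singleton_self u) hu')
  rw [mem_Uset, mem_Uset, h0]
  constructor
  · rintro ⟨c, a, b⟩
    exact ⟨c, a, fun u' hu' hc hm => b u' hu' hc ((h1 u' hu').2 hm)⟩
  · rintro ⟨c, a, b⟩
    exact ⟨c, a, fun u' hu' hc hm => b u' hu' hc ((h1 u' hu').1 hm)⟩

/-- union of independent sets -/
theorem col_biUnion {J : Type} [Fintype J] (f : J → Finset V)
    (hf : ∀ j, ∀ u ∈ f j, ∀ v ∈ f j, ¬ G.Adj u v) :
    UHC.Col G (univ.biUnion f) (Fintype.card J) := by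
  have hf' : ∀ j, UHC.Col G (f j) 1 := fun j =>
    ⟨fun _ => 0, fun _ _ => Nat.one_pos, fun u hu v hv huv _ => hf j u hu v hv huv⟩
  have h : ∀ T : Finset J, UHC.Col G (T.biUnion f) T.card := by
    intro T
    induction T using Finset.induction_on with
    | empty => exact ⟨fun _ => 0, by simp, by simp⟩
    | insert a T ha ih =>
      rw [Finset.biUnion_insert, Finset.card_insert_of_notMem ha]
      exact ((hf' a).union ih).mono (Finset.Subset.refl _) (by omega)
  have := h univ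
  rwa [Finset.card_univ] at this

section prob

variable {P : Par} {y : V × Fin L → ℝ} {lv : V → Fin L} {Ac : Finset V}

/-- pointwise inequality -/
theorem Uset_ge (I : Finset (V × Fin L)) {u : V} (hA : u ∈ Ac) (Nn : Finset V) {Bd : ℝ}
    (hBd : 0 < Bd) :
    (1 - 1 / Bd) * ind ((u, lv u) ∈ I) -
      ∑ u' ∈ (nb G u).filter (fun u' => (lv u : ℕ) < lv u'),
        ind ((u, lv u) ∈ I ∧ (u', lv u') ∈ I) -
      1 / Bd * ∑ u' ∈ Nn.erase u, ind ((u, lv u) ∈ I ∧ (u', lv u') ∈ I) ≤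
    ind (u ∈ Uset G lv Ac I ∧ ((Uset G lv Ac I ∩ Nn).card : ℝ) ≤ Bd) := by
  have hb : 0 < 1 / Bd := by positivity
  have n1 : 0 ≤ ∑ u' ∈ (nb G u).filter (fun u' => (lv u : ℕ) < lv u'),
      ind ((u, lv u) ∈ I ∧ (u', lv u') ∈ I) := Finset.sum_nonneg fun _ _ => ind_nonneg _
  have n2 : 0 ≤ ∑ u' ∈ Nn.erase u, ind ((u, lv u) ∈ I ∧ (u', lv u') ∈ I) :=
    Finset.sum_nonneg fun _ _ => ind_nonneg _
  have n3 : 0 ≤ 1 / Bd * ∑ u' ∈ Nn.erase u, ind ((u, lv u) ∈ I ∧ (u', lv u') ∈ I) :=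
    mul_nonneg hb.le n2
  by_cases hu : (u, lv u) ∈ I
  · by_cases hU : u ∈ Uset G lv Ac I
    · by_cases hc : ((Uset G lv Ac I ∩ Nn).card : ℝ) ≤ Bd
      · rw [ind_true hu, ind_true ⟨hU, hc⟩]
        linarith
      · rw [ind_true hu, ind_false (fun h => hc h.2)]
        have h1 : ((Uset G lv Ac I ∩ Nn).card : ℝ) ≤ 1 + ∑ u' ∈ Nn.erase u,
            ind ((u, lv u) ∈ I ∧ (u', lv u') ∈ I) := by
          have h2 : Uset G lv Ac I ∩ Nn ⊆ insert u ((Nn.erase u).filter
              (fun u' => (u, lv u) ∈ I ∧ (u', lv u') ∈ I)) := by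
            intro w hw
            rw [Finset.mem_inter] at hw
            by_cases hwu : w = u
            · exact Finset.mem_insert.2 (Or.inl hwu)
            · exact Finset.mem_insert_of_mem (Finset.mem_filter.2
                ⟨Finset.mem_erase.2 ⟨hwu, hw.2⟩, hu, (mem_Uset.1 hw.1).2.1⟩)
          have h3 := (Finset.card_le_card h2).trans (Finset.card_insert_le _ _)
          simp_rw [ind_eq]
          rw [← Finset.sum_filter, Finset.sum_const, nsmul_eq_mul, mul_one]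
          have : ((Uset G lv Ac I ∩ Nn).card : ℝ) ≤ (((Nn.erase u).filter
              (fun u' => (u, lv u) ∈ I ∧ (u', lv u') ∈ I)).card : ℝ) + 1 := by exact_mod_cast h3
          linarith
        push Not at hc
        have h2 : 1 < 1 / Bd * (1 + ∑ u' ∈ Nn.erase u,
            ind ((u, lv u) ∈ I ∧ (u', lv u') ∈ I)) := by
          have h4 : 1 / Bd * Bd < 1 / Bd * (1 + ∑ u' ∈ Nn.erase u,
              ind ((u, lv u) ∈ I ∧ (u', lv u') ∈ I)) :=
            mul_lt_mul_of_pos_left (lt_of_lt_of_le hc h1) hb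
          rwa [one_div_mul_cancel hBd.ne'] at h4
        linarith
    · rw [ind_true hu, ind_false (fun h => hU h.1)]
      have h1 : ∃ u' ∈ nb G u, (lv u : ℕ) < lv u' ∧ (u', lv u') ∈ I := by
        by_contra hcon
        push Not at hcon
        exact hU (mem_Uset.2 ⟨hA, hu, fun u' hu' hc => hcon u' hu' hc⟩)
      obtain ⟨u', hu', hc, hm⟩ := h1
      have h2 : (1 : ℝ) ≤ ∑ u' ∈ (nb G u).filter (fun u' => (lv u : ℕ) < lv u'),
          ind ((u, lv u) ∈ I ∧ (u', lv u') ∈ I) := by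
        have h3 := Finset.single_le_sum (s := (nb G u).filter (fun u' => (lv u : ℕ) < lv u'))
          (f := fun u' => ind ((u, lv u) ∈ I ∧ (u', lv u') ∈ I))
          (fun _ _ => ind_nonneg _) (Finset.mem_filter.2 ⟨hu', hc⟩)
        refine le_trans (le_of_eq ?_) h3
        exact (ind_true ⟨hu, hm⟩).symm
      linarith
  · rw [ind_false hu]
    have := ind_nonneg (u ∈ Uset G lv Ac I ∧ ((Uset G lv Ac I ∩ Nn).card : ℝ) ≤ Bd)
    linarith

theorem tree_sub {X : Type} [Fintype X] {Γ : SimpleGraph X} (n : ℕ) (s : St X)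
    (F F' : List (Finset X) → ℝ) :
    tree Γ P n s (fun l => F l - F' l) = tree Γ P n s F - tree Γ P n s F' := by
  have h1 := tree_add (Γ := Γ) (P := P) n s F (fun l => (-1) * F' l)
  rw [tree_smul] at h1
  rw [sub_eq_add_neg, ← neg_one_mul, ← h1]
  exact tree_congr n s _ _ fun l => by ring

theorem lay_far {u u' : V} {l l' : Fin L} (h : l ≠ l') (w : V × Fin L)
    (hw : w = (u, l) ∨ w ∈ nb (lay G L) (u, l)) :
    ¬ (w = (u', l') ∨ w ∈ nb (lay G L) (u', l')) := by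
  have key : ∀ (v : V) (m : Fin L), (w = (v, m) ∨ w ∈ nb (lay G L) (v, m)) → w.2 = m := by
    intro v m hp
    rcases hp with rfl | hp
    · rfl
    · exact (lay_adj.1 (mem_nb.1 hp)).2.symm
  intro hw'
  exact h ((key u l hw).symm.trans (key u' l' hw'))

theorem tree_Uset (hPr : S_PAIR) (hP : P.Ok) (hy : ∀ p, 0 ≤ y p ∧ y p ≤ 1) {d : ℝ}
    (hd : ∀ v, ((nb G v).card : ℝ) ≤ d) (hde : d ≤ (1 + P.g) * P.eh) (S : ℕ) {B Bd R τ : ℝ}
    (hB : 0 < B) (hBd : 1 ≤ Bd)
    (hcl : ∀ v ∈ Ac, (((nb G v).filter (fun u => (lv v : ℕ) < lv u)).card : ℝ) ≤ B)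
    (hR : ∀ v, R ≤ P.q * ∑ i ∈ range S, (Op (lay G L) P)^[i] (fun s => s.1 (v, lv v)) (ini y))
    (hτ : τ ≤ (1 - 1 / Bd) * ((1 - P.q * ((1 + P.g) * P.eh)) * R) - B * (P.q * S) ^ 2 -
        d / Bd * (2 * P.M * (P.q * S) ^ 2)) {u : V} (hu : u ∈ Ac) (Nn : Finset V)
    (hNn : (Nn.card : ℝ) ≤ d) :
    τ ≤ tree (lay G L) P S (ini y) (fun l =>
      ind (u ∈ Uset G lv Ac (picked (lay G L) P (ini y) l) ∧
        ((Uset G lv Ac (picked (lay G L) P (ini y) l) ∩ Nn).card : ℝ) ≤ Bd)) := by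
  have hI := ini_inv hP hy hd hde
  have hBd0 : 0 < Bd := by linarith
  have h1 := tree_mono (Γ := lay G L) hP S (ini y) hI _ _
    (fun l => Uset_ge (G := G) (lv := lv) (picked (lay G L) P (ini y) l) hu Nn hBd0)
  refine le_trans ?_ h1
  rw [tree_sub, tree_sub, tree_smul, tree_smul, tree_sum, tree_sum]
  have h2 : (1 - P.q * ((1 + P.g) * P.eh)) * R ≤ tree (lay G L) P S (ini y)
      (fun l => ind ((u, lv u) ∈ picked (lay G L) P (ini y) l)) := by
    refine le_trans (mul_le_mul_of_nonneg_left (hR u) ?_) (le_picked' hP hI (u, lv u) S)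
    linarith [hP.qe, hP.g1]
  have hM0 : 0 < P.M := Real.exp_pos _
  have h3 : ∀ u', u' ≠ u → tree (lay G L) P S (ini y)
      (fun l => ind ((u, lv u) ∈ picked (lay G L) P (ini y) l ∧
        (u', lv u') ∈ picked (lay G L) P (ini y) l)) ≤
      2 * P.M * (P.q * S) ^ 2 := by
    intro u' hne
    refine (pair_le' hP (fun h => hne (Prod.mk.inj h).1.symm) S (ini y) hI).trans ?_
    have h4 : (ini y).1 (u, lv u) + (ini y).1 (u', lv u') ≤ 2 := by
      have a := (hy (u, lv u)).2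
      have b := (hy (u', lv u')).2
      show y (u, lv u) + y (u', lv u') ≤ 2
      linarith
    calc P.q ^ 2 * P.M * ((ini y).1 (u, lv u) + (ini y).1 (u', lv u')) * (S : ℝ) ^ 2 ≤
          P.q ^ 2 * P.M * 2 * (S : ℝ) ^ 2 := by
          refine mul_le_mul_of_nonneg_right (mul_le_mul_of_nonneg_left h4 ?_) (sq_nonneg _)
          positivity
      _ = _ := by ring
  have h3' : ∀ u', (lv u : ℕ) < lv u' → tree (lay G L) P S (ini y)
      (fun l => ind ((u, lv u) ∈ picked (lay G L) P (ini y) l ∧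
        (u', lv u') ∈ picked (lay G L) P (ini y) l)) ≤ (P.q * S) ^ 2 := by
    intro u' hlt
    have hne : lv u ≠ lv u' := fun h => by rw [h] at hlt; exact lt_irrefl _ hlt
    refine (hPr _ (lay G L) P hP (u, lv u) (u', lv u') (lay_far hne) S (ini y) hI).trans ?_
    have h4 : (ini y).1 (u, lv u) * (ini y).1 (u', lv u') ≤ 1 :=
      mul_le_one₀ (hy (u, lv u)).2 (hy (u', lv u')).1 (hy (u', lv u')).2
    exact mul_le_of_le_one_right (sq_nonneg _) h4
  have hc0 : 0 ≤ 2 * P.M * (P.q * S) ^ 2 := by positivity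
  have h4 : ∑ u' ∈ (nb G u).filter (fun u' => (lv u : ℕ) < lv u'),
        tree (lay G L) P S (ini y) (fun l => ind ((u, lv u) ∈ picked (lay G L) P (ini y) l ∧
          (u', lv u') ∈ picked (lay G L) P (ini y) l)) ≤
      B * (P.q * S) ^ 2 := by
    refine (Finset.sum_le_sum fun u' hu' => h3' u' (Finset.mem_filter.1 hu').2).trans ?_
    rw [Finset.sum_const, nsmul_eq_mul]
    exact mul_le_mul_of_nonneg_right (hcl u hu) (sq_nonneg _)
  have h5 : ∑ u' ∈ Nn.erase u, tree (lay G L) P S (ini y)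
        (fun l => ind ((u, lv u) ∈ picked (lay G L) P (ini y) l ∧
          (u', lv u') ∈ picked (lay G L) P (ini y) l)) ≤
      d * (2 * P.M * (P.q * S) ^ 2) := by
    refine (Finset.sum_le_sum fun u' hu' => h3 u' (Finset.ne_of_mem_erase hu')).trans ?_
    rw [Finset.sum_const, nsmul_eq_mul]
    refine mul_le_mul_of_nonneg_right (le_trans ?_ hNn) hc0
    exact_mod_cast Finset.card_le_card (Finset.erase_subset _ _)
  have h6 : 0 ≤ 1 - 1 / Bd := by
    have : 1 / Bd ≤ 1 := by rw [div_le_one hBd0]; exact hBd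
    linarith
  have h7 := mul_le_mul_of_nonneg_left h2 h6
  have h8 := mul_le_mul_of_nonneg_left h5 (by positivity : 0 ≤ 1 / Bd)
  have h9 : d / Bd * (2 * P.M * (P.q * S) ^ 2) =
      1 / Bd * (d * (2 * P.M * (P.q * S) ^ 2)) := by ring
  rw [h9] at hτ
  linarith

end prob

/-! ## the product space -/

/-- flattening the coordinates -/
def flat (J : Type) (S : ℕ) (X C : Type) : (J × (Fin S × X) → C) ≃ (J → Fin S → X → C) :=
  (Equiv.curry _ _ _).trans (Equiv.piCongrRight fun _ => Equiv.curry _ _ _)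

theorem sum_flat {J X C : Type} {S : ℕ} [Fintype J] [Fintype X] [Fintype C] (w : C → ℝ)
    (Q : (J → Fin S → X → C) → Prop) :
    ∑ ω ∈ univ.filter (fun ω : J × (Fin S × X) → C => Q (flat J S X C ω)), ∏ t, w (ω t) =
    ∑ ω ∈ univ.filter (fun ω : J → Fin S → X → C => Q ω), ∏ j, ∏ i, ∏ v, w (ω j i v) := by
  refine Finset.sum_equiv (flat J S X C) ?_ ?_
  · intro ω
    simp
  · intro ω _
    rw [Fintype.prod_prod_type]
    refine Finset.prod_congr rfl fun j _ => ?_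
    rw [Fintype.prod_prod_type]
    rfl

end Pool.Agent.H21.UC
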