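import Mathlib
import Pool.Agent.H21.UC.Asm

set_option autoImplicit false

/-!
# One phase
-/

namespace Pool.Agent.H21.UC

open Finset Classical
open Pool.Agent.K1H34.UNI (nb Pr es KK TT Dep S_ONE S_SRC S_MASS S_KST S_WLLL)
open Pool.Agent.K1H34

variable {V : Type} [Fintype V]

/-- the local lemma, for any decidable equality of the coordinates -/
theorem wlll' (hW : S_WLLL) (T C ι : Type) [Fintype T] [DecidableEq T] [Fintype C] [Fintype ι]
    (w : C → ℝ) (hw0 : ∀ c, 0 ≤ w c) (hw1 : ∑ c, w c = 1) (B : ι → (T → C) → Prop)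
    (S : ι → Finset T) (hdep : ∀ i, Dep (B i) (S i)) (p : ℝ) (D : ℕ) (hp : 0 ≤ p)
    (h1 : ∀ i, ∑ ω ∈ univ.filter (fun ω : T → C => B i ω), ∏ t, w (ω t) ≤ p)
    (h2 : ∀ i, (univ.filter (fun j => ¬ Disjoint (S i) (S j))).card ≤ D)
    (h4 : 4 * p * D ≤ 1) (hD : 1 ≤ D) : ∃ ω : T → C, ∀ i, ¬ B i ω := by
  rename_i inst _ _
  have hd : inst = fun a b => Classical.propDecidable (a = b) := Subsingleton.elim _ _
  subst hd
  exact hW T C ι w hw0 hw1 B S hdep p D hp h1 h2 h4 hD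

/-- the local lemma for independent random sets that are determined locally -/
theorem lll_flat (hW : S_WLLL) (G : SimpleGraph V) {X C J : Type} [Fintype X] [Fintype C]
    [Fintype J]
    (w : C → ℝ) (hw0 : ∀ c, 0 ≤ w c) (hw1 : ∑ c, w c = 1) (S R : ℕ)
    (f : J → (Fin S → X → C) → Finset V) (loc : X → V) (y p : ℝ) (hp : 0 ≤ p) (D0 : ℕ)
    (hD0 : ∀ v, (nb G v).card ≤ D0) (hlll : 4 * p * ((D0 + 1) ^ (2 * R) : ℕ) ≤ 1)
    (h1 : ∀ v : V, ∑ ω ∈ univ.filter (fun ω : J → (Fin S → X → C) =>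
      y ≤ ((nb G v \ univ.biUnion (fun j => f j (ω j))).card : ℝ)),
        ∏ j, ∏ i, ∏ v, w (ω j i v) ≤ p)
    (h2 : ∀ v, ∀ ω ω' : Fin S → X → C, (∀ i b, loc b ∈ ball G R {v} → ω i b = ω' i b) →
      ∀ j, ∀ u ∈ nb G v, (u ∈ f j ω ↔ u ∈ f j ω')) :
    ∃ ω : J → Fin S → X → C, ∀ v,
      ((nb G v \ univ.biUnion (fun j => f j (ω j))).card : ℝ) < y := by
  set bad : V → (J × (Fin S × X) → C) → Prop := fun v ω =>
    y ≤ ((nb G v \ univ.biUnion (fun j => f j (flat J S X C ω j))).card : ℝ) with hbad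
  set Sv : V → Finset (J × (Fin S × X)) := fun v =>
    univ.filter (fun c => loc c.2.2 ∈ ball G R {v}) with hSv
  have hdep : ∀ v, Dep (bad v) (Sv v) := by
    intro v ω ω' hω hb
    have key : ∀ j, ∀ u ∈ nb G v, (u ∈ f j (flat J S X C ω j) ↔
        u ∈ f j (flat J S X C ω' j)) := by
      intro j u hu
      refine h2 v _ _ (fun i b hb => ?_) j u hu
      refine hω (j, (i, b)) ?_
      rw [hSv, Finset.mem_filter]
      exact ⟨Finset.mem_univ _, hb⟩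
    have key2 : nb G v \ univ.biUnion (fun j => f j (flat J S X C ω j)) =
        nb G v \ univ.biUnion (fun j => f j (flat J S X C ω' j)) := by
      ext u
      rw [Finset.mem_sdiff, Finset.mem_sdiff, Finset.mem_biUnion, Finset.mem_biUnion]
      constructor
      · rintro ⟨a, b⟩
        exact ⟨a, fun ⟨j, hj, h1⟩ => b ⟨j, hj, (key j u a).2 h1⟩⟩
      · rintro ⟨a, b⟩
        exact ⟨a, fun ⟨j, hj, h1⟩ => b ⟨j, hj, (key j u a).1 h1⟩⟩
    show y ≤ _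
    rw [← key2]
    exact hb
  have hsum : ∀ v, ∑ ω ∈ univ.filter (fun ω : J × (Fin S × X) → C => bad v ω),
      ∏ t, w (ω t) ≤ p := by
    intro v
    have e := sum_flat (J := J) (S := S) (X := X) w (fun ω : J → Fin S → X → C =>
        y ≤ ((nb G v \ univ.biUnion (fun j => f j (ω j))).card : ℝ))
    exact e.le.trans (h1 v)
  have hcard : ∀ v, (univ.filter (fun j => ¬ Disjoint (Sv v) (Sv j))).card ≤
      (D0 + 1) ^ (2 * R) := by
    intro v
    have h1 : univ.filter (fun j => ¬ Disjoint (Sv v) (Sv j)) ⊆ ball G (2 * R) {v} := by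
      intro v' hv'
      rw [Finset.mem_filter, Finset.not_disjoint_iff] at hv'
      obtain ⟨_, c, hc1, hc2⟩ := hv'
      rw [hSv, Finset.mem_filter] at hc1 hc2
      have h2 := ball_symm _ hc2.2
      rw [two_mul, ball_add]
      refine ball_mono _ ?_ h2
      rw [Finset.singleton_subset_iff]
      exact hc1.2
    refine (Finset.card_le_card h1).trans ?_
    have h2 := ball_card hD0 (2 * R) {v}
    rwa [Finset.card_singleton, one_mul] at h2
  obtain ⟨ω, hω⟩ : ∃ ω, ∀ v, ¬ bad v ω := by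
    exact wlll' hW (J × (Fin S × X)) C V w hw0 hw1 bad Sv hdep p ((D0 + 1) ^ (2 * R)) hp
      hsum hcard hlll (Nat.one_le_pow _ _ (Nat.succ_pos _))
  exact ⟨flat J S X C ω, fun v => not_le.1 (hω v)⟩

/-- independent locally determined random sets -/
theorem copies (hW : S_WLLL) (hC : S_CONC2) (hS : S_SRC) (hO : S_ONE) (G : SimpleGraph V)
    {X : Type} [Fintype X] {Γ : SimpleGraph X} {P : Par} (hP : P.Ok) {s : St X}
    (hI : Inv Γ P s) {J : Type} [Fintype J] {d Bd η m δ : ℝ} {S : ℕ}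
    (hd : ∀ v, ((nb G v).card : ℝ) ≤ d)
    (hBd : 0 < Bd) (hη : 0 < η) (hη1 : η ≤ 1) (τ : J → V → ℝ) (hτ0 : ∀ j u, 0 ≤ τ j u)
    (hm : ∀ u, m ≤ ∑ j, τ j u) (g : J → Finset X → Finset V) (loc : X → V)
    (hcov : ∀ (j : J) (u : V) (Nn : Finset V), (Nn.card : ℝ) ≤ d →
      τ j u ≤ tree Γ P S s (fun l => ind (u ∈ g j (picked Γ P s l) ∧
        ((g j (picked Γ P s l) ∩ Nn).card : ℝ) ≤ Bd)))
    (hloc : ∀ v, ∃ D : J → Finset X,
      (∀ j, ∀ q ∈ ball Γ (2 * S) (D j), loc q ∈ ball G (2 * S + 2) {v}) ∧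
      ∀ j, ∀ I I' : Finset X, (∀ a ∈ D j, (a ∈ I ↔ a ∈ I')) →
        ∀ u ∈ nb G v, (u ∈ g j I ↔ u ∈ g j I'))
    (hlll : 4 * Real.exp (-(η * ((1 - δ) * d - Real.exp (-((1 - η / 2) * m)) * d) / Bd)) *
        ((⌊d⌋₊ + 1) ^ (2 * (2 * S + 2)) : ℕ) ≤ 1) :
    ∃ l : J → List (Finset X), ∀ v,
      ((nb G v \ univ.biUnion (fun j => g j (picked Γ P s (l j)))).card : ℝ) ≤ (1 - δ) * d := by
  obtain ⟨C, hCf, w, E, hw0, hw1, hgood⟩ := exists_source hS hP hI S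
  set f : J → (Fin S → X → C) → Finset V := fun j ω => g j (picked Γ P s (As Γ P E S s ω))
    with hf
  set W : (Fin S → X → C) → ℝ := fun ω => ∏ i, ∏ v, w (ω i v) with hWdef
  have hlaw := sum_As hO w hw1 E S s hgood
  have hW1 : ∑ ω, W ω = 1 := by
    have := hlaw (fun _ => 1)
    rw [tree_const] at this
    simpa [hWdef] using this
  have hW0 : ∀ ω, 0 ≤ W ω := fun ω =>
    Finset.prod_nonneg fun i _ => Finset.prod_nonneg fun v _ => hw0 _
  have hcov' : ∀ (j : J) (u : V) (Nn : Finset V), (Nn.card : ℝ) ≤ d →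
      τ j u ≤ ∑ ω ∈ univ.filter (fun ω => u ∈ f j ω ∧ ((f j ω ∩ Nn).card : ℝ) ≤ Bd), W ω := by
    intro j u Nn hNn
    refine (hcov j u Nn hNn).trans (le_of_eq ?_)
    rw [← hlaw, Finset.sum_filter]
    refine Finset.sum_congr rfl fun ω _ => ?_
    rw [ind_eq, mul_ite, mul_one, mul_zero]
  set p := Real.exp (-(η * ((1 - δ) * d - Real.exp (-((1 - η / 2) * m)) * d) / Bd)) with hp
  have hconc : ∀ v : V, ∑ ω ∈ univ.filter (fun ω : J → (Fin S → X → C) =>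
      (1 - δ) * d ≤ ((nb G v \ univ.biUnion (fun j => f j (ω j))).card : ℝ)),
        ∏ j, W (ω j) ≤ p := by
    intro v
    refine (hC J (Fin S → X → C) V W hW0 hW1 f (nb G v) Bd η τ m hBd hη hη1 hτ0
      (fun j u _ => hcov' j u (nb G v) (hd v)) (fun u _ => hm u) ((1 - δ) * d)).trans ?_
    rw [hp, Real.exp_le_exp, neg_le_neg_iff]
    refine div_le_div_of_nonneg_right ?_ hBd.le
    refine mul_le_mul_of_nonneg_left ?_ hη.le
    have h2 : Real.exp (-((1 - η / 2) * m)) * ((nb G v).card : ℝ) ≤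
        Real.exp (-((1 - η / 2) * m)) * d :=
      mul_le_mul_of_nonneg_left (hd v) (Real.exp_pos _).le
    linarith
  have hdN : ∀ v, (nb G v).card ≤ ⌊d⌋₊ := fun v => Nat.le_floor (hd v)
  obtain ⟨ω, hω⟩ := lll_flat hW G w hw0 hw1 S (2 * S + 2) f loc ((1 - δ) * d) p
    (Real.exp_pos _).le ⌊d⌋₊ hdN hlll hconc (by
      intro v ω ω' hωω j u hu
      obtain ⟨D, hD1, hD2⟩ := hloc v
      refine hD2 j _ _ (fun a ha => ?_) u hu
      exact picked_local E S (D j) s s ω ω' (fun _ _ => ⟨rfl, rfl⟩)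
        (fun i b hb => hωω i b (hD1 j b hb)) a ha)
  exact ⟨fun j => As Γ P E S s (ω j), fun v => (hω v).le⟩

/-! ## offsets -/

/-- the largest number `≤ c` congruent to `θ` modulo `N` -/
def off (N θ c : ℕ) : ℕ := N * ((c + N - θ) / N - 1) + θ

theorem off_aux {N θ c : ℕ} (hθ : θ < N) (hc : N ≤ c + 1) : 1 ≤ (c + N - θ) / N := by
  rw [Nat.le_div_iff_mul_le (by omega)]
  omega

theorem off_le {N θ c : ℕ} (hθ : θ < N) (hc : N ≤ c + 1) : off N θ c ≤ c := by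
  have h1 := off_aux hθ hc
  have h2 := Nat.mul_div_le (c + N - θ) N
  obtain ⟨q, hq⟩ : ∃ q, (c + N - θ) / N = q + 1 := ⟨(c + N - θ) / N - 1, by omega⟩
  unfold off
  rw [hq] at h2 ⊢
  rw [Nat.add_sub_cancel]
  rw [mul_add, mul_one] at h2
  omega

theorem lt_off {N θ c : ℕ} (hθ : θ < N) (hc : N ≤ c + 1) : c < off N θ c + N := by
  have h1 := off_aux hθ hc
  have h2 := Nat.lt_mul_div_succ (c + N - θ) (b := N) (by omega)
  obtain ⟨q, hq⟩ : ∃ q, (c + N - θ) / N = q + 1 := ⟨(c + N - θ) / N - 1, by omega⟩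
  unfold off
  rw [hq] at h2 ⊢
  rw [Nat.add_sub_cancel]
  rw [mul_add, mul_add, mul_one] at h2
  omega

theorem off_mono {N θ c c' : ℕ} (h : c ≤ c') : off N θ c ≤ off N θ c' := by
  unfold off
  have h1 : (c + N - θ) / N ≤ (c' + N - θ) / N := Nat.div_le_div_right (by omega)
  have h2 : N * ((c + N - θ) / N - 1) ≤ N * ((c' + N - θ) / N - 1) :=
    Nat.mul_le_mul_left _ (by omega)
  omega

theorem off_succ {N θ c : ℕ} (hθ : θ < N) (h : ¬ N ∣ c + 1 + N - θ) :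
    off N θ (c + 1) = off N θ c := by
  unfold off
  have h1 : c + 1 + N - θ = (c + N - θ) + 1 := by omega
  rw [h1] at h ⊢
  rw [Nat.succ_div, if_neg h, add_zero]

theorem card_rest (N c : ℕ) (hc : N ≤ c + 1) :
    (univ.filter (fun θ : Fin N => N ∣ c + 1 + N - θ)).card ≤ 1 := by
  rw [Finset.card_le_one]
  have key : ∀ a b : Fin N, N ∣ c + 1 + N - a → N ∣ c + 1 + N - b → ¬ (a : ℕ) < b := by
    intro a b ha hb hab
    have h1 : N ∣ (c + 1 + N - a) - (c + 1 + N - b) := Nat.dvd_sub ha hb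
    have h2 : (c + 1 + N - (a : ℕ)) - (c + 1 + N - b) = b - a := by
      have := a.2
      have := b.2
      omega
    rw [h2] at h1
    have h3 := Nat.le_of_dvd (by omega) h1
    have := b.2
    omega
  intro a ha b hb
  rw [Finset.mem_filter] at ha hb
  have h1 := key a b ha.2 hb.2
  have h2 := key b a hb.2 ha.2
  exact Fin.ext (by omega)

theorem sum_active (K k c : ℕ) (hc : K + 1 ≤ c + 1) {τ : ℝ} (hτ : 0 ≤ τ) :
    (k : ℝ) * K * τ ≤ ∑ j : Fin k × Fin (K + 1),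
      if K + 1 ∣ c + 1 + (K + 1) - j.2 then 0 else τ := by
  have h0 : ∀ F : Fin (K + 1) → ℝ, ∑ j : Fin k × Fin (K + 1), F j.2 = k * ∑ θ, F θ := by
    intro F
    rw [Fintype.sum_prod_type]
    show ∑ _x : Fin k, ∑ y, F y = _
    rw [Finset.sum_const, Finset.card_univ, Fintype.card_fin, nsmul_eq_mul]
  rw [h0 (fun θ => if K + 1 ∣ c + 1 + (K + 1) - (θ : ℕ) then 0 else τ), mul_assoc]
  refine mul_le_mul_of_nonneg_left ?_ (Nat.cast_nonneg _)
  have h1 : ∀ θ : Fin (K + 1), (if K + 1 ∣ c + 1 + (K + 1) - (θ : ℕ) then (0 : ℝ) else τ) =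
      τ - (if K + 1 ∣ c + 1 + (K + 1) - (θ : ℕ) then τ else 0) := by
    intro θ
    split_ifs <;> ring
  rw [Finset.sum_congr rfl fun θ _ => h1 θ, Finset.sum_sub_distrib, Finset.sum_const,
    Finset.card_univ, Fintype.card_fin, nsmul_eq_mul, ← Finset.sum_filter, Finset.sum_const,
    nsmul_eq_mul]
  have h2 : (((univ.filter (fun θ : Fin (K + 1) => K + 1 ∣ c + 1 + (K + 1) - (θ : ℕ))).card : ℕ) :
      ℝ) ≤ 1 := by exact_mod_cast card_rest (K + 1) c hc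
  have h3 := mul_le_mul_of_nonneg_right h2 hτ
  push_cast
  linarith

/-! ## one phase -/

/-- the layer of a vertex, for the offset `θ` -/
noncomputable def lvf (N L : ℕ) (cl : V → ℕ) (h : ∀ v, N ≤ cl v + 1 ∧ cl v + N < L) (θ : Fin N)
    (v : V) : Fin L :=
  ⟨off N θ (cl v), lt_of_le_of_lt (off_le θ.2 (h v).1) (by have := (h v).2; omega)⟩

/-- the active vertices -/
noncomputable def Acf (N : ℕ) (cl : V → ℕ) (θ : Fin N) : Finset V :=
  univ.filter (fun v => ¬ N ∣ cl v + 1 + N - θ)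

theorem mem_Acf {N : ℕ} {cl : V → ℕ} {θ : Fin N} {v : V} :
    v ∈ Acf N cl θ ↔ ¬ N ∣ cl v + 1 + N - θ := by simp [Acf]

theorem higher_le {G : SimpleGraph V} {N L : ℕ} {cl : V → ℕ}
    (h : ∀ v, N ≤ cl v + 1 ∧ cl v + N < L) {B : ℝ}
    (hcl : ∀ v, (((nb G v).filter (fun u => cl v + 2 ≤ cl u)).card : ℝ) ≤ B) (θ : Fin N) :
    ∀ v ∈ Acf N cl θ,
      (((nb G v).filter (fun u => (lvf N L cl h θ v : ℕ) < lvf N L cl h θ u)).card : ℝ) ≤ B := by
  intro v hv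
  refine le_trans ?_ (hcl v)
  have : (nb G v).filter (fun u => (lvf N L cl h θ v : ℕ) < lvf N L cl h θ u) ⊆
      (nb G v).filter (fun u => cl v + 2 ≤ cl u) := by
    intro u hu
    rw [Finset.mem_filter] at hu ⊢
    refine ⟨hu.1, ?_⟩
    by_contra hcon
    have h1 : cl u ≤ cl v + 1 := by omega
    have h2 : off N θ (cl u) ≤ off N θ (cl v + 1) := off_mono h1
    rw [off_succ θ.2 (mem_Acf.1 hv)] at h2
    exact absurd hu.2 (not_lt.2 h2)
  exact_mod_cast Finset.card_le_card this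

/-- the loss in one round -/
theorem round_ge (hK : S_KST) (hPr : S_PAIR) {t : ℕ}
    (ht : 1 ≤ t) {G : SimpleGraph V} {L : ℕ} {d : ℝ}
    (hd : ∀ v, ((nb G v).card : ℝ) ≤ d) {P : Par} (hP : P.Ok)
    (hde : d ≤ (1 + P.g) * P.eh) {κ B Bd h Θ R τ : ℝ} {S : ℕ} (S1 : 1 ≤ S) (hκ : 0 < κ)
    (hB : 0 < B) (hBd : 1 ≤ Bd)
    (hΘ : Θ = κ * ((1 + P.g) * P.eh) ^ 2 * S +
      h / (((1 + P.g) * P.eh) ^ (2 * t - 2) * κ ^ t ^ 2))
    (hRR : R * (P.q * (P.eh ^ 2 / 4 + P.ph * P.M * P.eh) + P.ph * P.eh / S) ≤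
      P.q * (P.ph * (P.eh - d) - 2 * P.q * P.ph * Θ))
    (hτ : τ ≤ (1 - 1 / Bd) * ((1 - P.q * ((1 + P.g) * P.eh)) * R) - B * (P.q * S) ^ 2 -
        d / Bd * (2 * P.M * (P.q * S) ^ 2))
    {x : V × Fin L → ℝ} (hy : ∀ p, 0 ≤ x p ∧ x p ≤ 1) {lv : V → Fin L} {Ac : Finset V}
    (hone : ∀ v, x (v, lv v) = 1) (hH : ∀ v, Hb G L P t S x (v, lv v) ≤ h)
    (hcl : ∀ v ∈ Ac, (((nb G v).filter (fun u => (lv v : ℕ) < lv u)).card : ℝ) ≤ B)
    {u : V} (hu : u ∈ Ac) (Nn : Finset V) (hNn : (Nn.card : ℝ) ≤ d) :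
    τ ≤ tree (lay G L) P S (ini x) (fun l =>
      ind (u ∈ Uset G lv Ac (picked (lay G L) P (ini x) l) ∧
        ((Uset G lv Ac (picked (lay G L) P (ini x) l) ∩ Nn).card : ℝ) ≤ Bd)) := by
  have q0 := hP.q0
  have eh0 := hP.e0
  have ph0 := hP.p0
  have hM0 : 0 < P.M := Real.exp_pos _
  have hS0 : (0 : ℝ) < S := by exact_mod_cast S1
  refine tree_Uset hPr hP hy hd hde S hB hBd hcl (fun v => ?_) hτ hu Nn hNn
  have h1 := layer_surv hK ht hP hy hd hde S S1 (hone v) hκ (hH v) (Θ := Θ) hΘ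
  generalize ∑ i ∈ range S, (Op (lay G L) P)^[i] (fun s => s.1 (v, lv v)) (ini x) = sg at h1 ⊢
  have hD : 0 < P.q * (P.eh ^ 2 / 4 + P.ph * P.M * P.eh) + P.ph * P.eh / S := by positivity
  have h2 := mul_le_mul_of_nonneg_left h1 q0.le
  have h3 : R * (P.q * (P.eh ^ 2 / 4 + P.ph * P.M * P.eh) + P.ph * P.eh / S) ≤
      P.q * sg * (P.q * (P.eh ^ 2 / 4 + P.ph * P.M * P.eh) + P.ph * P.eh / S) := by
    refine hRR.trans (h2.trans (le_of_eq ?_))
    ring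
  exact le_of_mul_le_mul_right h3 hD

theorem phase_core (hW : S_WLLL) (hC : S_CONC2) (hM : S_MASS) (hK : S_KST) (hL : S_LEVK)
    (hS : S_SRC) (hO : S_ONE) (hPr : S_PAIR) {t s : ℕ} (ht : 1 ≤ t) (G : SimpleGraph V)
    (hR : UHC.Rare G t s) {d δ : ℝ} (hd0 : 0 ≤ d)
    (hd : ∀ v, ((nb G v).card : ℝ) ≤ d) {P : Par} (hP : P.Ok)
    (hde : d ≤ (1 + P.g) * P.eh) {κ B Bd h Θ R τ η : ℝ} {S K k : ℕ} (S1 : 1 ≤ S) (hκ : 0 < κ)
    (hB : 0 < B) (hBd : 1 ≤ Bd) (hh : 0 < h) (hτ0 : 0 < τ) (η0 : 0 < η) (η1 : η ≤ 1)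
    (hmass : 2 * (S * ((s + t ^ 2) * P.M * ((1 + P.g) * P.eh) ^ (2 * t - 1))) *
      (2 * (d / B + 1)) ^ (K + 1) < h)
    (hΘ : Θ = κ * ((1 + P.g) * P.eh) ^ 2 * S +
      h / (((1 + P.g) * P.eh) ^ (2 * t - 2) * κ ^ t ^ 2))
    (hRR : R * (P.q * (P.eh ^ 2 / 4 + P.ph * P.M * P.eh) + P.ph * P.eh / S) ≤
      P.q * (P.ph * (P.eh - d) - 2 * P.q * P.ph * Θ))
    (hτ : τ ≤ (1 - 1 / Bd) * ((1 - P.q * ((1 + P.g) * P.eh)) * R) - B * (P.q * S) ^ 2 -
        d / Bd * (2 * P.M * (P.q * S) ^ 2))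
    (hlll : 4 * Real.exp (-(η * ((1 - δ) * d - Real.exp (-((1 - η / 2) * (k * K * τ))) * d) /
        Bd)) * ((⌊d⌋₊ + 1) ^ (2 * (2 * S + 2)) : ℕ) ≤ 1) :
    ∃ U : Finset V, UHC.Col G U (k * (K + 1)) ∧
      ∀ v, ((nb G v \ U).card : ℝ) ≤ (1 - δ) * d := by
  have hM0 : 0 < P.M := Real.exp_pos _
  have he0 := hP.e0
  have hg0 := hP.g0
  obtain ⟨L, hLdef⟩ : ∃ L, L = Fintype.card V + 2 * (K + 1) := ⟨_, rfl⟩
  obtain ⟨cl, x, hy, hclK, hy1, hyH, hcl⟩ := hL (K + 1) (by omega) V G L (Hb G L P t S)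
    (S * ((s + t ^ 2) * P.M * ((1 + P.g) * P.eh) ^ (2 * t - 1))) h d B (Hb_cont P t S)
    (fun y hy p => Hb_nonneg hP hy hd hde t S p)
    (fun y hy l => Hb_mass hM ht hR hP hy hd hde S l) hd hh hB (by positivity) hd0 hmass
    (by omega) (by
      have h1 : L - 2 * (K + 1) + 1 = Fintype.card V + 1 := by omega
      rw [h1]
      exact lt_of_lt_of_le Nat.lt_two_pow_self
        (Nat.pow_le_pow_right (by norm_num) (by omega)))
  have hI := ini_inv hP hy hd hde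
  have hone : ∀ θ v, x (v, lvf (K + 1) L cl hclK θ v) = 1 := fun θ v =>
    hy1 v _ (off_le θ.2 (hclK v).1)
  have hH : ∀ θ v, Hb G L P t S x (v, lvf (K + 1) L cl hclK θ v) ≤ h := fun θ v =>
    hyH v _ (off_le θ.2 (hclK v).1) (lt_off θ.2 (hclK v).1)
  have hcov : ∀ (j : Fin k × Fin (K + 1)) (u : V) (Nn : Finset V), (Nn.card : ℝ) ≤ d →
      (if K + 1 ∣ cl u + 1 + (K + 1) - j.2 then 0 else τ) ≤
      tree (lay G L) P S (ini x) (fun l =>
        ind (u ∈ Uset G (lvf (K + 1) L cl hclK j.2) (Acf (K + 1) cl j.2)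
            (picked (lay G L) P (ini x) l) ∧
          ((Uset G (lvf (K + 1) L cl hclK j.2) (Acf (K + 1) cl j.2)
            (picked (lay G L) P (ini x) l) ∩ Nn).card : ℝ) ≤ Bd)) := by
    intro j u Nn hNn
    by_cases hju : K + 1 ∣ cl u + 1 + (K + 1) - j.2
    · rw [if_pos hju]
      have h1 := tree_mono (Γ := lay G L) hP S (ini x) hI (fun _ => 0) (fun l =>
        ind (u ∈ Uset G (lvf (K + 1) L cl hclK j.2) (Acf (K + 1) cl j.2)
            (picked (lay G L) P (ini x) l) ∧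
          ((Uset G (lvf (K + 1) L cl hclK j.2) (Acf (K + 1) cl j.2)
            (picked (lay G L) P (ini x) l) ∩ Nn).card : ℝ) ≤ Bd))
        (fun l => ind_nonneg _)
      rwa [tree_const] at h1
    · rw [if_neg hju]
      exact round_ge hK hPr ht hd hP hde S1 hκ hB hBd hΘ hRR hτ hy (hone j.2) (hH j.2)
        (higher_le hclK hcl j.2) (mem_Acf.2 hju) Nn hNn
  have hloc : ∀ v, ∃ D : Fin k × Fin (K + 1) → Finset (V × Fin L),
      (∀ j, ∀ q ∈ ball (lay G L) (2 * S) (D j), q.1 ∈ ball G (2 * S + 2) {v}) ∧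
      ∀ j, ∀ I I' : Finset (V × Fin L), (∀ a ∈ D j, (a ∈ I ↔ a ∈ I')) →
        ∀ u ∈ nb G v, (u ∈ Uset G (lvf (K + 1) L cl hclK j.2) (Acf (K + 1) cl j.2) I ↔
          u ∈ Uset G (lvf (K + 1) L cl hclK j.2) (Acf (K + 1) cl j.2) I') := by
    intro v
    refine ⟨fun j => univ.filter
        (fun x => x.1 ∈ ball G 2 {v} ∧ x.2 = lvf (K + 1) L cl hclK j.2 x.1),
      fun j q hq => ?_, fun j I I' hII u hu => Uset_congr fun u' hu' => hII _ ?_⟩
    · rw [ball_add]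
      refine ball_lay (2 * S) _ (ball G 2 {v}) (fun x hx => ?_) q hq
      rw [Finset.mem_filter] at hx
      exact hx.2.1
    · rw [Finset.mem_filter]
      refine ⟨Finset.mem_univ _, ?_, rfl⟩
      rw [show (2 : ℕ) = 1 + 1 by norm_num, ball_succ]
      refine nbh_mono ?_ hu'
      rw [Finset.singleton_subset_iff, show (1 : ℕ) = 0 + 1 by norm_num, ball_succ, ball_zero]
      exact nb_subset_nbh (Finset.mem_singleton_self v) hu
  obtain ⟨l, hl⟩ := copies (J := Fin k × Fin (K + 1)) hW hC hS hO G hP hI hd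
    (by linarith : 0 < Bd) η0 η1
    (fun j u => if K + 1 ∣ cl u + 1 + (K + 1) - j.2 then 0 else τ)
    (fun j u => by split_ifs <;> linarith)
    (fun u => sum_active K k (cl u) (hclK u).1 hτ0.le)
    (fun j => Uset G (lvf (K + 1) L cl hclK j.2) (Acf (K + 1) cl j.2)) (fun p => p.1)
    hcov hloc hlll
  have hcol := col_biUnion (G := G) (J := Fin k × Fin (K + 1))
    (fun j => Uset G (lvf (K + 1) L cl hclK j.2) (Acf (K + 1) cl j.2)
      (picked (lay G L) P (ini x) (l j)))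
    (fun j => Uset_ind (picked_indep _ _))
  rw [Fintype.card_prod, Fintype.card_fin, Fintype.card_fin] at hcol
  exact ⟨_, hcol, hl⟩

theorem phase_one (hW : S_WLLL) (hC : S_CONC2) (hM : S_MASS) (hK : S_KST) (hL : S_LEVK)
    (hS : S_SRC) (hO : S_ONE) (hPr : S_PAIR) {t s : ℕ} (ht : 1 ≤ t) {y δ : ℝ} {K k : ℕ}
    (hN : NumOk t s y δ K k) (G : SimpleGraph V) (hR : UHC.Rare G t s)
    (hd : ∀ v, ((nb G v).card : ℝ) ≤ Real.exp y) :
    ∃ U : Finset V, UHC.Col G U (k * (K + 1)) ∧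
      ∀ v, ((nb G v \ U).card : ℝ) ≤ (1 - δ) * Real.exp y := by
  obtain ⟨g, q, eh, ph, M, E, κ, B, Bd, h, Θ, R, τ, η, S, g0, g1, q0, eh0, ph0, κ0, B0, Bd1, h0,
    τ0, η0, η1, S1, hMe, hEe, qM, qE, hdE, hmass, hΘ, hRR, hτ, hlll⟩ := hN
  subst hMe
  subst hEe
  exact phase_core hW hC hM hK hL hS hO hPr ht G hR (Real.exp_pos y).le hd
    (P := ⟨g, q, eh, ph⟩) ⟨g0, g1, q0, eh0, ph0, qM, qE⟩ hdE S1 κ0 B0 Bd1 h0 τ0 η0 η1 hmass hΘ
    hRR hτ hlll

/-- **one phase** -/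
theorem t_PHASE (hW : S_WLLL) (hC : S_CONC2) (hM : S_MASS) (hK : S_KST) (hL : S_LEVK)
    (hS : S_SRC) (hO : S_ONE) (hPr : S_PAIR) (hN : S_NUM2) : S_PHASE := by
  intro t s ht ε hε
  obtain ⟨δ, δ0, δ1, K, y0, hy0, h⟩ := hN t s ht ε hε
  refine ⟨δ, δ0, δ1, y0, hy0, fun y hy => ?_⟩
  obtain ⟨k, hk, hok⟩ := h y hy
  refine ⟨k * (K + 1), by push_cast; exact hk, fun V _ G hR hd => ?_⟩
  exact phase_one hW hC hM hK hL hS hO hPr ht hok G hR hd

end Pool.Agent.H21.UC
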