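import Mathlib
import Pool.Agent.H21.UC.Half
import Pool.Agent.H61.UC.Levk
import Pool.Agent.H41.UC.Pair
import Pool.Agent.H41.UC.Cor
import Pool.Agent.H60.UC.Conc2
import Pool.Agent.H85.UC.Fin
import Pool.Agent.H10.UC.Num
import Pool.Graph.R_pool_sql_team_seeded_efc1946e.K1H97.UNI.WLLL
import Pool.Graph.R_pool_sql_team_seeded_efc1946e.K1H97.UNI.Src
import Pool.Graph.R_pool_sql_team_seeded_efc1946e.K1H31.UNI.Mass
import Pool.Graph.R_pool_sql_team_seeded_efc1946e.K1H45.UNI.KST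

set_option autoImplicit false

/-!
# Project KC: assembly
-/

namespace Pool.Agent.H21.UC

open Finset Classical

theorem t_PAIR : S_PAIR := by
  intro X _ Γ P hP u v huv n s h
  refine Pool.Agent.H41.UC.pair_far hP ?_ n s h
  rw [Finset.disjoint_left]
  intro w hw hw'
  exact huv w (Finset.mem_insert.1 hw) (Finset.mem_insert.1 hw')

theorem t_ALL : S_ALL :=
  Pool.Agent.H85.UC.t_FIN (t_PHASE Pool.Agent.K1H97.UNI.t_WLLL Pool.Agent.H60.UC.t_CONC2
    Pool.Agent.K1H31.UNI.t_MASS Pool.Agent.K1H45.UNI.t_KST Pool.Agent.H61.UC.t_LEVK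
    Pool.Agent.K1H97.UNI.t_SRC Pool.Agent.K1H97.UNI.t_ONE t_PAIR Pool.Agent.H10.UC.t_NUM2)

/-- graphs in which every `K(t, t)` has few common neighbours -/
theorem locally_sparse (t s : ℕ) (ht : 1 ≤ t) (ε : ℝ) (hε : 0 < ε) :
    ∃ Δ₀ : ℕ, ∀ Δ : ℕ, Δ₀ ≤ Δ → ∀ (V : Type) [Fintype V] (G : SimpleGraph V)
      [DecidableRel G.Adj],
      (∀ x y : Fin t → V, Function.Injective x → Function.Injective y →
        (∀ i j, G.Adj (x i) (y j)) →
        Nat.card {v : V // (∀ i, G.Adj v (x i)) ∧ ∀ i, G.Adj v (y i)} ≤ s) →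
      G.maxDegree ≤ Δ →
      ∃ n : ℕ, G.Colorable n ∧ (n : ℝ) ≤ (1 + ε) * ((Δ : ℝ) / Real.log (Δ : ℝ)) := by
  obtain ⟨y0, hy0⟩ := t_ALL t s ht ε hε
  refine ⟨max ⌈Real.exp y0⌉₊ 3, fun Δ hΔ V _ G _ hrare hmax => ?_⟩
  have h3 : 3 ≤ Δ := (le_max_right _ _).trans hΔ
  have hΔ3 : (3 : ℝ) ≤ Δ := by exact_mod_cast h3
  have hΔ0 : (0 : ℝ) < Δ := by linarith
  have hexp : Real.exp (Real.log Δ) = Δ := Real.exp_log hΔ0
  have hy : y0 ≤ Real.log Δ := by
    rw [Real.le_log_iff_exp_le hΔ0]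
    have h1 : ⌈Real.exp y0⌉₊ ≤ Δ := (le_max_left _ _).trans hΔ
    exact (Nat.le_ceil _).trans (by exact_mod_cast h1)
  obtain ⟨k, hk, c, a, b⟩ := hy0 (Real.log Δ) hy V G (by
    intro x y hx hy hxy
    refine le_trans (le_of_eq ?_) (hrare x y hx hy hxy)
    rw [Nat.card_eq_fintype_card, Fintype.card_subtype]
    congr 1
    ext v
    simp) (by
    intro u
    rw [hexp]
    have h1 : (Pool.Agent.K1H34.UNI.nb G u).card ≤ Δ := by
      refine le_trans (le_trans (le_of_eq ?_) (G.degree_le_maxDegree u)) hmax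
      rw [← SimpleGraph.card_neighborFinset_eq_degree]
      congr 1
      ext v
      rw [SimpleGraph.mem_neighborFinset]
      simp [Pool.Agent.K1H34.UNI.nb]
    exact_mod_cast h1)
  rw [hexp] at hk
  refine ⟨k, ⟨SimpleGraph.Coloring.mk (fun v => (⟨c v, a v (Finset.mem_univ v)⟩ : Fin k)) ?_⟩, ?_⟩
  · intro u v huv h4
    exact b u (Finset.mem_univ u) v (Finset.mem_univ v) huv (congrArg Fin.val h4)
  · refine hk.trans ?_
    rw [mul_div_assoc]

end Pool.Agent.H21.UC
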